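import Pool.Agent.H91.FT.R3

/-!
Section 2 of the local analysis, complete: `two_zero` (Cop), `two_one` (Tr2), `two_two`,
`two_three` (Un), `two_four`, `exists_arr`, `Arr.comm`, `Arr.rank`, `Arr.inv`, `Arr.omega`,
`Arr.inf_le` (Ar), `le_of_el3`, `good_of_el3`, `card_le_of_bad` (R3).

Conventions: `P : Sylow p G`, `Inv A q K` (`K` is a `q` subgroup normalised by `A`), `MInv A q K`
(maximal such), `El p E` (exponent `p`, commutative), `Wide p A` (not abelian of rank at most 2).
-/
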