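import Pool.Agent.H36.FT.S6e
import Pool.Agent.H23.FT.S5B

/-!
6.3: `M' = F_{M'} (M' ⊓ N(P))`, where `M'` is the maximal subgroup that contains the centraliser of
the bad element `x ∈ P`.
-/

set_option autoImplicit false
set_option linter.unusedSectionVars false

namespace H36.FT

open Subgroup H51.FT H57.FT
open Pool.Agent
open scoped Pointwise commutatorElement

/-- in a cyclic group the elements with `w ^ t = 1` are powers of an element of order `t` -/
theorem cyc_mem {G : Type*} [Group G] [Finite G] {Y : Subgroup G} (hc : IsCyclic Y) {t : ℕ}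
    (ht : 0 < t) {u w : G} (hu : u ∈ Y) (hut : orderOf u = t) (hw : w ∈ Y) (hwt : w ^ t = 1) :
    w ∈ zpowers u := by
  classical
  have : Fintype Y := Fintype.ofFinite _
  have h1 := IsCyclic.card_pow_eq_one_le (α := Y) (n := t) ht
  have h2 : orderOf (⟨u, hu⟩ : Y) = t := by rw [← hut]; exact Subgroup.orderOf_mk u hu
  have h3 : (Finset.range t).image (fun i => (⟨u, hu⟩ : Y) ^ i) ⊆
      Finset.univ.filter (fun a : Y => a ^ t = 1) := by
    intro a ha
    obtain ⟨i, -, rfl⟩ := Finset.mem_image.1 ha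
    rw [Finset.mem_filter]
    refine ⟨Finset.mem_univ _, ?_⟩
    rw [← pow_mul, mul_comm, pow_mul]
    nth_rw 1 [← h2]
    rw [pow_orderOf_eq_one, one_pow]
  have h4 : ((Finset.range t).image (fun i => (⟨u, hu⟩ : Y) ^ i)).card = t := by
    rw [Finset.card_image_of_injOn, Finset.card_range]
    intro i hi j hj hij
    have hi' : i < orderOf (⟨u, hu⟩ : Y) := by
      rw [h2]; exact Finset.mem_range.1 (Finset.mem_coe.1 hi)
    have hj' : j < orderOf (⟨u, hu⟩ : Y) := by
      rw [h2]; exact Finset.mem_range.1 (Finset.mem_coe.1 hj)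
    exact pow_injOn_Iio_orderOf hi' hj' hij
  have h5 := Finset.eq_of_subset_of_card_le h3 (by rw [h4]; exact h1)
  have h6 : (⟨w, hw⟩ : Y) ∈ Finset.univ.filter (fun a : Y => a ^ t = 1) := by
    rw [Finset.mem_filter]
    exact ⟨Finset.mem_univ _, Subtype.ext hwt⟩
  rw [← h5] at h6
  obtain ⟨i, -, hi⟩ := Finset.mem_image.1 h6
  rw [mem_zpowers_iff]
  exact ⟨i, by rw [zpow_natCast]; exact congrArg Subtype.val hi⟩

/-- splitting a number along a set of primes -/
lemma split_nat (σ : ℕ → Prop) (n : ℕ) (hn : n ≠ 0) : ∃ a b : ℕ, a * b = n ∧ a.Coprime b ∧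
    (∀ p : ℕ, p.Prime → p ∣ a → σ p) ∧ (∀ p : ℕ, p.Prime → p ∣ b → ¬ σ p) := by
  classical
  induction n using Nat.recOnPosPrimePosCoprime with
  | prime_pow p m hp hm =>
    by_cases h : σ p
    · refine ⟨p ^ m, 1, mul_one _, Nat.coprime_one_right _, ?_, ?_⟩
      · intro q hq hqd
        rw [(Nat.prime_dvd_prime_iff_eq hq hp).mp (hq.dvd_of_dvd_pow hqd)]
        exact h
      · intro q hq hqd
        exact absurd hqd hq.not_dvd_one
    · refine ⟨1, p ^ m, one_mul _, Nat.coprime_one_left _, ?_, ?_⟩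
      · intro q hq hqd
        exact absurd hqd hq.not_dvd_one
      · intro q hq hqd
        rw [(Nat.prime_dvd_prime_iff_eq hq hp).mp (hq.dvd_of_dvd_pow hqd)]
        exact h
  | zero => exact absurd rfl hn
  | one =>
    exact ⟨1, 1, rfl, Nat.coprime_one_right _, fun p hp h => absurd h hp.not_dvd_one,
      fun p hp h => absurd h hp.not_dvd_one⟩
  | coprime a b ha hb hab iha ihb =>
    obtain ⟨a1, a2, ha12, -, ha1, ha2⟩ := iha (by omega)
    obtain ⟨b1, b2, hb12, -, hb1, hb2⟩ := ihb (by omega)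
    have h1 : ∀ p : ℕ, p.Prime → p ∣ a1 * b1 → σ p := by
      intro p hp h
      rcases (hp.dvd_mul).mp h with h | h
      · exact ha1 p hp h
      · exact hb1 p hp h
    have h2 : ∀ p : ℕ, p.Prime → p ∣ a2 * b2 → ¬ σ p := by
      intro p hp h
      rcases (hp.dvd_mul).mp h with h | h
      · exact ha2 p hp h
      · exact hb2 p hp h
    refine ⟨a1 * b1, a2 * b2, ?_, ?_, h1, h2⟩
    · rw [← ha12, ← hb12]; ring
    · exact Nat.coprime_of_dvd fun p hp h3 h4 => h2 p hp h4 (h1 p hp h3)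

/-- splitting an element along a set of primes -/
lemma split_elt {G : Type*} [Group G] [Finite G] (σ : ℕ → Prop) (g : G) : ∃ i j : ℕ, g = g ^ i * g ^ j ∧
    (∀ p : ℕ, p.Prime → p ∣ orderOf (g ^ i) → σ p) ∧
    (∀ p : ℕ, p.Prime → p ∣ orderOf (g ^ j) → ¬ σ p) := by
  obtain ⟨a, b, hab, hc, ha, hb⟩ := split_nat σ (orderOf g) (orderOf_pos g).ne'
  obtain ⟨i, hi1, hi2⟩ := Nat.chineseRemainder hc 1 0
  obtain ⟨j, hj1, hj2⟩ := Nat.chineseRemainder hc 0 1
  refine ⟨i, j, ?_, ?_, ?_⟩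
  · have h1 : i + j ≡ 1 [MOD a * b] :=
      (Nat.modEq_and_modEq_iff_modEq_mul hc).mp ⟨hi1.add hj1, hi2.add hj2⟩
    rw [hab] at h1
    have h2 : g ^ (i + j) = g ^ 1 := pow_eq_pow_iff_modEq.2 h1
    rw [pow_one] at h2
    rw [← pow_add, h2]
  · intro p hp hpd
    apply ha p hp
    refine hpd.trans (orderOf_dvd_of_pow_eq_one ?_)
    rw [← pow_mul, ← orderOf_dvd_iff_pow_eq_one, ← hab, mul_comm i a]
    exact Nat.mul_dvd_mul_left a ((Nat.modEq_zero_iff_dvd).mp hi2)
  · intro p hp hpd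
    apply hb p hp
    refine hpd.trans (orderOf_dvd_of_pow_eq_one ?_)
    rw [← pow_mul, ← orderOf_dvd_iff_pow_eq_one, ← hab]
    exact Nat.mul_dvd_mul ((Nat.modEq_zero_iff_dvd).mp hj1) dvd_rfl

section

variable {G : Type*} [Group G] [Finite G] [IsSimpleGroup G]
variable (hG : _root_.commutator G = ⊤) (hodd : Odd (Nat.card G))
  (hNA : ∀ H : Subgroup G, H < ⊤ → Group.IsNilpotent (_root_.commutator H))

include hG hodd hNA in
/-- `x` centralises the normal `t`-subgroups of `M'`, `t ∉ σ(M')` -/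
theorem LM.comm_Y (hpair : PairP G) {p : ℕ} [Fact p.Prime] (P : Sylow p G) {x : G}
    (hb : Bad P x) {M' : Subgroup G} (h : LM x M') {t : ℕ} [Fact t.Prime] (hpt : p ≠ t)
    {Y : Subgroup G} (hYt : IsPGroup t Y) (hYM : Y ≤ M') (hYn : M' ≤ normalizer (Y : Set G))
    (hsig : ∀ T : Sylow t G, normalizer (T : Set G) ≠ M') : ∀ c ∈ Y, c * x = x * c := by
  obtain ⟨hx, hxp, hbad⟩ := hb
  have hp : p.Prime := Fact.out
  have ht : t.Prime := Fact.out
  have hx1 : x ≠ 1 := ne_one_of_order hp hxp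
  have hM' := h.lt hG hNA
  have hnc := h.nc hG hodd hNA P hx hxp
  have hxM : x ∈ M' := h.cent (mem_centralizer_singleton_iff.2 rfl)
  by_cases hYb : Y = ⊥
  · intro c hc
    rw [hYb, mem_bot] at hc
    rw [hc, one_mul, mul_one]
  obtain ⟨q, hq, Q, hQb, hQM⟩ := h.isM
  have : Fact q.Prime := ⟨hq⟩
  have hqt : q ≠ t := by
    rintro rfl
    exact hsig Q hQM
  have hTb : ∀ T : Sylow t G, (T : Subgroup G) ≠ ⊥ := by
    intro T
    have h1 : t ∣ Nat.card G := by
      obtain ⟨k, hk⟩ := IsPGroup.iff_card.1 hYt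
      have hk0 : k ≠ 0 := by
        rintro rfl
        rw [pow_zero, card_eq_one] at hk
        exact hYb hk
      exact (dvd_pow_self t hk0).trans (hk ▸ card_subgroup_dvd_card Y)
    exact T.ne_bot_of_dvd_card h1
  have hsig' : ∀ T : Sylow t G, ¬ normalizer (Q : Set G) ≤ normalizer (T : Set G) := by
    intro T hT
    have h1 := eq_normalizer_of_le (sylC hG hNA) hG hNA Q hQb (norm_lt hG hNA T (hTb T)) hT
    exact hsig T (h1.trans hQM)
  obtain ⟨hcyc, hbadY⟩ := H3.FT.four_two hG hodd hNA Q hQb hYt (by rw [hQM]; exact hYM)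
    (by rw [hQM]; exact hYn) hsig'
  have hpx : ¬ t ∣ orderOf x := by
    rw [hxp]
    intro hd
    exact hpt ((Nat.prime_dvd_prime_iff_eq ht hp).1 hd).symm
  refine H3.FT.cyc_cent ht hYt hcyc hpx (hYn hxM) ?_
  intro u hu hut
  by_cases hu1 : u = 1
  · rw [hu1, one_mul, mul_one]
  have hut' : orderOf u = t := orderOf_eq_prime hut hu1
  obtain ⟨T, hYT⟩ := hYt.exists_le_sylow
  have huT : u ∈ T := hYT hu
  have hbu : Bad T u := ⟨huT, hut', hbadY u hu hu1 T huT⟩
  -- `u` commutes with `Q`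
  have hQu : ∀ a ∈ Q, a * u = u * a := by
    intro a ha
    have hcop : (Nat.card (Q : Subgroup G)).Coprime (Nat.card Y) := by
      obtain ⟨i, hi⟩ := IsPGroup.iff_card.1 Q.2
      obtain ⟨j, hj⟩ := IsPGroup.iff_card.1 hYt
      have hi' : Nat.card (Q : Subgroup G) = q ^ i := hi
      rw [hi', hj]
      exact Nat.Coprime.pow _ _ ((Nat.coprime_primes hq ht).2 hqt)
    exact commute_of_coprime hcop ((le_normalizer.trans hQM.le).trans hYn) (hYM.trans hQM.ge)
      a ha u hu
  obtain ⟨-, hcuM, -, hHHsig⟩ := H3.FT.four_five hG hodd hNA Q hQb hqt T huT hut' hQu hsig'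
  rw [hQM] at hcuM
  have hpH : ¬ p ∣ Nat.card (HH u) := by
    intro hd
    obtain ⟨S, hS⟩ := hHHsig p hp hd
    have hSb : (S : Subgroup G) ≠ ⊥ :=
      S.ne_bot_of_dvd_card (hd.trans (card_subgroup_dvd_card _))
    have h1 := eq_normalizer_of_le (sylC hG hNA) hG hNA Q hQb (norm_lt hG hNA S hSb) hS
    obtain ⟨g, hg⟩ := MulAction.exists_smul_eq G P S
    apply hnc g
    rw [sylow_normalizer_smul, hg, h1, hQM]
  -- `x` normalises `⟨u⟩`
  have hxu : x ∈ normalizer (zpowers u : Set G) := by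
    apply H91.FT.mem_norm
    intro k hk
    have hkY : k ∈ Y := (zpowers_le.2 hu) hk
    refine cyc_mem hcyc ht.pos hu hut' (H91.FT.norm_mem (hYn hxM) hkY) ?_
    obtain ⟨i, rfl⟩ := mem_zpowers_iff.1 hk
    rw [conj_pow, ← zpow_natCast, ← zpow_mul, mul_comm, zpow_mul, zpow_natCast, hut, one_zpow,
      mul_one, mul_inv_cancel]
  have hxuT : x * u * x⁻¹ ∈ T := hYT (H91.FT.norm_mem (hYn hxM) hu)
  obtain ⟨n, hn, c, hc, hxnc⟩ := fusion_elt (sylC hG hNA) T huT hxuT
  obtain ⟨h', hh', m', hm', hcm⟩ := HH_dec hG hodd hNA T huT hut'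
    (mem_centralizer_singleton_iff.2 hc)
  set B : Subgroup G := normalizer (T : Set G) ⊓ normalizer (zpowers u : Set G) with hB
  have hCB : centralizer ({u} : Set G) ≤ normalizer (zpowers u : Set G) := by
    intro g hg
    apply H91.FT.mem_norm
    intro k hk
    obtain ⟨i, rfl⟩ := mem_zpowers_iff.1 hk
    have h1 : Commute g u := mem_centralizer_singleton_iff.1 hg
    have h2 : g * u ^ i * g⁻¹ = u ^ i := by
      rw [(h1.zpow_right i).eq, mul_inv_cancel_right]
    rw [h2]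
    exact zpow_mem (mem_zpowers u) i
  have hnB : n ∈ B := by
    refine ⟨hn, ?_⟩
    have h1 : n = x * c⁻¹ := by rw [hxnc, mul_inv_cancel_right]
    rw [h1]
    exact (normalizer (zpowers u : Set G)).mul_mem hxu
      ((normalizer (zpowers u : Set G)).inv_mem (hCB (mem_centralizer_singleton_iff.2 hc)))
  have hm'B : m' ∈ B := ⟨hm'.2, hCB hm'.1⟩
  have hBH : B ≤ normalizer (HH u : Set G) := inf_le_right.trans H23.FT.normalizer_le_HH
  have hxL : x ∈ HH u ⊔ B := by
    have h1 : x = (n * h' * n⁻¹) * (n * m') := by rw [hxnc, hcm]; group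
    rw [h1]
    exact mul_mem (mem_sup_left (H91.FT.norm_mem (hBH hnB) hh')) (mem_sup_right (mul_mem hnB hm'B))
  have hmul : ∀ g ∈ HH u ⊔ B, ∃ a ∈ HH u, ∃ b ∈ B, g = a * b := by
    intro g hg
    have h1 : ((HH u ⊔ B : Subgroup G) : Set G) = (HH u : Set G) * (B : Set G) :=
      coe_mul_of_right_le_normalizer_left (HH u) B hBH
    have h2 : g ∈ ((HH u : Set G) * (B : Set G)) := by rw [← h1]; exact hg
    obtain ⟨a, ha, b, hb, rfl⟩ := h2
    exact ⟨a, ha, b, hb, rfl⟩
  have hLn : HH u ⊔ B ≤ normalizer (HH u : Set G) := sup_le le_normalizer hBH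
  have hxpow : x ^ p ^ 1 = 1 := by rw [pow_one, ← hxp, pow_orderOf_eq_one]
  obtain ⟨c₁, hc₁, hc₁x⟩ := H23.FT.exists_conj_mem (q := p) le_sup_left le_sup_right hLn hmul hpH
    hxL hxpow
  obtain ⟨a, ha, b, hb', rfl⟩ := hmul c₁ hc₁
  set f : G := b⁻¹ * a * b with hf
  have hfH : f ∈ HH u := H91.FT.norm_mem' (hBH hb') ha
  have hfB : f * x * f⁻¹ ∈ B := by
    have h1 : f * x * f⁻¹ = b⁻¹ * ((a * b) * x * (a * b)⁻¹) * b := by rw [hf]; group
    rw [h1]
    exact B.mul_mem (B.mul_mem (B.inv_mem hb') hc₁x) hb'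
  have hfu : f * u = u * f := mem_centralizer_singleton_iff.1 (HH_le u hfH)
  -- it is enough that `f x f⁻¹` commutes with `u`
  have hback : (f * x * f⁻¹) * u = u * (f * x * f⁻¹) → u * x = x * u := by
    intro h1
    have h2 : f⁻¹ * u = u * f⁻¹ := by
      rw [inv_mul_eq_iff_eq_mul, ← mul_assoc, hfu, mul_inv_cancel_right]
    have h3 : f * (x * u) * f⁻¹ = f * (u * x) * f⁻¹ := by
      calc f * (x * u) * f⁻¹ = f * x * (u * f⁻¹) := by group
        _ = (f * x * f⁻¹) * u := by rw [← h2]; group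
        _ = u * (f * x * f⁻¹) := h1
        _ = (u * f) * x * f⁻¹ := by group
        _ = f * (u * x) * f⁻¹ := by rw [← hfu]; group
    exact (mul_left_cancel (mul_right_cancel h3)).symm
  by_cases hab : ∀ a ∈ T, ∀ b ∈ T, a * b = b * a
  · -- type A
    apply hback
    have h1 := norm_A hG hodd hNA T hab hbu hfB.1 hfB.2
    exact ((mem_centralizer_iff.1 h1) u huT).symm
  · -- type B
    have htop : (⊤ : Subgroup T) ≠ ⊥ := by
      intro h1
      have h2 : (⟨u, huT⟩ : T) ∈ (⊤ : Subgroup T) := trivial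
      rw [h1, mem_bot] at h2
      exact hu1 (congrArg Subtype.val h2)
    obtain ⟨z, -, hzo, hzc⟩ := H23.FT.exists_central T.2 (⊤ : Subgroup T) htop
    have hzo' : orderOf (z : G) = t := (Subgroup.orderOf_coe z).trans hzo
    have hz1 : (z : G) ≠ 1 := ne_one_of_order ht hzo'
    have hzp : (z : G) ^ t = 1 := orderOf_dvd_iff_pow_eq_one.mp hzo'.dvd
    have hzc' : ∀ a ∈ T, a * (z : G) = z * a := fun a ha =>
      congrArg Subtype.val ((mem_center_iff.1 hzc) ⟨a, ha⟩)
    have hzg : Good T (z : G) := good_center_B hG hodd hNA T hab z.2 hz1 hzc'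
    have hx'o : orderOf (f * x * f⁻¹) = p := by rw [IsKp.orderOf_conj, hxp]
    have hx'z : (f * x * f⁻¹) * z = z * (f * x * f⁻¹) := by
      refine norm_B hG hodd hNA T hab hbu z.2 hz1 hzp hzc' hfB.1 hfB.2 ?_
      rw [IsKp.orderOf_conj]
      exact hpx
    by_cases hNC : NC (normalizer (P : Set G)) (normalizer (T : Set G))
    · exfalso
      have hx'P : f * x * f⁻¹ ∈ (f • P : Sylow p G) :=
        Subgroup.smul_mem_pointwise_smul x (MulAut.conj f) (P : Subgroup G) hx
      have hNC' : NC (normalizer ((f • P : Sylow p G) : Set G)) (normalizer (T : Set G)) := by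
        intro g hg
        apply hNC (g * f)
        rw [map_mul, mul_smul, sylow_normalizer_smul f P, hg]
      rcases hpair p t hp ht (f • P) T (f * x * f⁻¹) z hx'P hx'o z.2 hzo' hx'z hNC' with h1 | h1
      · rw [HH_conj, mem_conj_iff] at h1
        obtain ⟨S, hS⟩ := sg_of_mem hG hNA hM' (h.le h1) ht (by
          have e : f⁻¹ * (z : G) * f = f⁻¹ * z * f⁻¹⁻¹ := by group
          rw [e, IsKp.orderOf_conj, hzo'])
        exact hsig S hS
      · rw [HH_good hG hNA T z.2 hzo' hzg.2.2, mem_bot] at h1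
        rw [h1, orderOf_one] at hx'o
        exact hp.one_lt.ne hx'o
    · unfold NC at hNC
      push Not at hNC
      obtain ⟨g, hg⟩ := hNC
      have hT0 : normalizer ((g⁻¹ • T : Sylow t G) : Set G) = normalizer (P : Set G) := by
        rw [← sylow_normalizer_smul, ← hg, map_inv, inv_smul_smul]
      set T0 : Sylow t G := g⁻¹ • T with hT0def
      have hcop : (Nat.card (P : Subgroup G)).Coprime (Nat.card (T0 : Subgroup G)) := by
        obtain ⟨i, hi⟩ := IsPGroup.iff_card.1 P.2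
        obtain ⟨j, hj⟩ := IsPGroup.iff_card.1 T0.2
        have hi' : Nat.card (P : Subgroup G) = p ^ i := hi
        have hj' : Nat.card (T0 : Subgroup G) = t ^ j := hj
        rw [hi', hj']
        exact Nat.Coprime.pow _ _ ((Nat.coprime_primes hp ht).2 hpt)
      have hcomm := commute_of_coprime hcop (le_normalizer.trans hT0.ge)
        (le_normalizer.trans hT0.le)
      have hT0M : (T0 : Subgroup G) ≤ M' := by
        intro w hw
        exact h.cent (mem_centralizer_singleton_iff.2 (hcomm x hx w hw).symm)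
      have hYT0 : Y ≤ T0 := by
        have h1 : IsPGroup t (Y ⊔ T0 : Subgroup G) :=
          hYt.to_sup_of_normal_left' T0.2 (hT0M.trans hYn)
        have h2 := T0.is_maximal' h1 le_sup_right
        rw [← h2]
        exact le_sup_left
      exact (hcomm x hx u (hYT0 hu)).symm

include hG hodd hNA in
/-- the `t`-elements of `[M', M']` normalise `P` if `t ∉ σ(M')` -/
theorem LM.comm_mem (hpair : PairP G) {p : ℕ} [Fact p.Prime] (P : Sylow p G) {x : G}
    (hb : Bad P x) {M' : Subgroup G} (h : LM x M') {t : ℕ} [Fact t.Prime] (hpt : p ≠ t)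
    (hsig : ∀ T : Sylow t G, normalizer (T : Set G) ≠ M') {v : G} (hv : v ∈ ⁅M', M'⁆) {k : ℕ}
    (hk : v ^ t ^ k = 1) : v ∈ normalizer (P : Set G) := by
  have hp : p.Prime := Fact.out
  have ht : t.Prime := Fact.out
  have hM' := h.lt hG hNA
  have hnil := nil_comm (hNA M' hM')
  have hvY : v ∈ H91.FT.qp t ⁅M', M'⁆ := H91.FT.mem_qp hv hk
  have hvx : v * x = x * v := by
    refine h.comm_Y hG hodd hNA hpair P hb hpt (H91.FT.isPGroup_qp ht hnil)
      ((H91.FT.qp_le t _).trans (comm_le_self M')) ?_ hsig v hvY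
    intro g hg
    apply H91.FT.mem_norm
    intro w hw
    refine H91.FT.qp_conj ?_ hw
    intro z hz
    exact IsKp.conj_mem_comm hg hz
  obtain ⟨h', hh', m, hm, hvm⟩ := HH_dec hG hodd hNA P hb.1 hb.2.1
    (mem_centralizer_singleton_iff.2 hvx)
  have hh'F : h' ∈ FM M' := h.le hh'
  have hcopt : (orderOf h').Coprime t := by
    rw [Nat.coprime_comm, ht.coprime_iff_not_dvd]
    intro hd
    obtain ⟨S, hS⟩ := sg_of_mem hG hNA hM' hh'F ht hd
    exact hsig S hS
  have hcomm : v * h' = h' * v :=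
    nil_commute hnil ht hv (FM_le_comm hG hNA M' hh'F) hk hcopt
  have hm2 : m = h'⁻¹ * v := by rw [hvm, inv_mul_cancel_left]
  have h1 : m ^ t ^ k = (h'⁻¹) ^ t ^ k := by
    have h2 : Commute h'⁻¹ v := (show Commute h' v from hcomm.symm).inv_left
    rw [hm2, h2.mul_pow, hk, mul_one]
  have h2 : (h'⁻¹) ^ t ^ k = 1 := by
    refine HH_tr hG hodd hNA P hb.1 hb.2.1 (pow_mem (inv_mem hh') _) ?_
    rw [← h1]
    exact pow_mem hm.2 _
  have h3 : h' = 1 := by
    rw [inv_pow, inv_eq_one] at h2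
    have h4 : orderOf h' ∣ t ^ k := orderOf_dvd_of_pow_eq_one h2
    exact orderOf_eq_one_iff.1 (Nat.eq_one_of_dvd_coprimes (hcopt.pow_right k) dvd_rfl h4)
  rw [hvm, h3, one_mul]
  exact hm.2

include hG hodd hNA in
/-- `P ⊓ M'` is a Sylow subgroup of `M'` and its normaliser is contained in `N(P)` -/
theorem LM.isSyl {p : ℕ} [Fact p.Prime] (P : Sylow p G) {x : G} (hb : Bad P x)
    {M' : Subgroup G} (h : LM x M') : IsSyl p M' ((P : Subgroup G) ⊓ M') ∧
      normalizer (((P : Subgroup G) ⊓ M' : Subgroup G) : Set G) ≤ normalizer (P : Set G) := by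
  have hp : p.Prime := Fact.out
  have hx1 : x ≠ 1 := ne_one_of_order hp hb.2.1
  by_cases hab : ∀ a ∈ P, ∀ b ∈ P, a * b = b * a
  · have hPM : (P : Subgroup G) ≤ M' := by
      intro a ha
      exact h.cent (mem_centralizer_singleton_iff.2 (hab a ha x hb.1))
    rw [inf_eq_left.2 hPM]
    exact ⟨⟨hPM, P.2, fun T _ hTp hle => P.3 hTp hle⟩, le_rfl⟩
  · have htop : (⊤ : Subgroup P) ≠ ⊥ := by
      intro h1
      have h2 : (⟨x, hb.1⟩ : P) ∈ (⊤ : Subgroup P) := trivial
      rw [h1, mem_bot] at h2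
      exact hx1 (congrArg Subtype.val h2)
    obtain ⟨z, -, hzo, hzc⟩ := H23.FT.exists_central P.2 (⊤ : Subgroup P) htop
    have hzo' : orderOf (z : G) = p := (Subgroup.orderOf_coe z).trans hzo
    have hz1 : (z : G) ≠ 1 := ne_one_of_order hp hzo'
    have hzc' : ∀ a ∈ P, a * (z : G) = z * a := fun a ha =>
      congrArg Subtype.val ((mem_center_iff.1 hzc) ⟨a, ha⟩)
    have hzg : Good P (z : G) := good_center_B hG hodd hNA P hab z.2 hz1 hzc'
    have hzM : (z : G) ∈ M' := h.cent (mem_centralizer_singleton_iff.2 (hzc' x hb.1).symm)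
    exact ⟨H23.FT.isSyl_good (sylC hG hNA) hzg hzM,
      hzg.normalizer_le (sylC hG hNA) (P.2.to_le inf_le_left) ⟨z.2, hzM⟩⟩

include hG hodd hNA in
/-- (6.3) `M' = F_{M'} (M' ⊓ N(P))` -/
theorem LM.dec (hpair : PairP G) {p : ℕ} [Fact p.Prime] (P : Sylow p G) {x : G} (hb : Bad P x)
    {M' : Subgroup G} (h : LM x M') {l : G} (hl : l ∈ M') :
    ∃ n ∈ FM M', ∃ e ∈ M', e ∈ normalizer (P : Set G) ∧ l = n * e := by
  have hp : p.Prime := Fact.out
  have hM' := h.lt hG hNA
  have hnc := h.nc hG hodd hNA P hb.1 hb.2.1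
  obtain ⟨hsyl, hnorm⟩ := h.isSyl hG hodd hNA P hb
  obtain ⟨K, hK⟩ := exists_isKp (p := p) (hNA M' hM')
  obtain ⟨k, hk, n, hn, rfl⟩ := hK.le_sup_normalizer (hNA M' hM') hsyl l hl
  have hnil := nil_comm (hNA M' hM')
  have hkc : k ∈ ⁅M', M'⁆ := hK.le_comm hk
  have hkp : (orderOf k).Coprime p := ((hK.mem k).1 hk).2
  -- splitting of `k`
  obtain ⟨i, j, hij, h1, h2⟩ := split_elt
    (fun s => ∃ T : Sylow s G, normalizer (T : Set G) = M') k
  have hki : k ^ i ∈ FM M' := by
    refine mem_FM_of_sg (pow_mem (comm_le_self M' hkc) i) ?_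
    intro s hs hd
    exact h1 s hs hd
  have hkj : k ^ j ∈ normalizer (P : Set G) := by
    apply H3.FT.mem_of_parts
    intro t ht w hw hwk
    have : Fact t.Prime := ⟨ht⟩
    obtain ⟨e, he⟩ := hwk
    by_cases hw1 : w = 1
    · rw [hw1]; exact one_mem _
    have h3 : t ∣ orderOf w := by
      have h4 : orderOf w ∣ t ^ e := orderOf_dvd_of_pow_eq_one he
      obtain ⟨e', -, he'⟩ := (Nat.dvd_prime_pow ht).1 h4
      rw [he']
      apply dvd_pow_self
      rintro rfl
      rw [pow_zero, orderOf_eq_one_iff] at he'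
      exact hw1 he'
    have h4 : t ∣ orderOf (k ^ j) := h3.trans (orderOf_dvd_of_mem_zpowers hw)
    have h5 := h2 t ht h4
    have h6 : w ∈ zpowers k := (zpowers_le.2 (pow_mem (mem_zpowers k) j)) hw
    have hpt : p ≠ t := by
      rintro rfl
      have h7 : p ∣ orderOf k := h3.trans (orderOf_dvd_of_mem_zpowers h6)
      exact hp.one_lt.ne' (Nat.eq_one_of_dvd_coprimes hkp h7 dvd_rfl)
    refine h.comm_mem hG hodd hNA hpair P hb hpt ?_ ((zpowers_le.2 hkc) h6) he
    intro T hT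
    exact h5 ⟨T, hT⟩
  refine ⟨k ^ i, hki, k ^ j * n, mul_mem (pow_mem (comm_le_self M' hkc) j) hn.1,
    mul_mem hkj (hnorm hn.2), ?_⟩
  rw [← mul_assoc, ← hij]

end

end H36.FT
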