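import Mathlib

/-!
Parts of nilpotent subgroups, conjugates of subgroups, and Sylow arguments in terms of subgroups
of one group.
-/

namespace Pool.Agent.H91.FT

open Subgroup

variable {G : Type*} [Group G]

/-- the conjugate `g K g⁻¹` -/
def cj (g : G) (K : Subgroup G) : Subgroup G := K.map (MulAut.conj g).toMonoidHom

theorem mem_cj {g x : G} {K : Subgroup G} : x ∈ cj g K ↔ g⁻¹ * x * g ∈ K := by
  unfold cj
  rw [Subgroup.mem_map]
  constructor
  · rintro ⟨y, hy, rfl⟩
    simpa [mul_assoc] using hy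
  · intro h
    exact ⟨_, h, by simp [mul_assoc]⟩

theorem cj_mem_cj {g x : G} {K : Subgroup G} (hx : x ∈ K) : g * x * g⁻¹ ∈ cj g K := by
  rw [mem_cj]
  simpa [mul_assoc] using hx

@[simp] theorem cj_one (K : Subgroup G) : cj 1 K = K := by
  ext x; simp [mem_cj]

theorem cj_mul (g h : G) (K : Subgroup G) : cj (g * h) K = cj g (cj h K) := by
  ext x; simp [mem_cj, mul_assoc]

theorem cj_mono {g : G} {K L : Subgroup G} (h : K ≤ L) : cj g K ≤ cj g L := by
  intro x hx
  rw [mem_cj] at hx ⊢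
  exact h hx

theorem cj_le_cj {g : G} {K L : Subgroup G} : cj g K ≤ cj g L ↔ K ≤ L := by
  constructor
  · intro h x hx
    have := h (cj_mem_cj (g := g) hx)
    rw [mem_cj] at this
    simpa [mul_assoc] using this
  · exact cj_mono

theorem cj_inj {g : G} {K L : Subgroup G} : cj g K = cj g L ↔ K = L := by
  constructor
  · intro h
    exact le_antisymm (cj_le_cj.1 h.le) (cj_le_cj.1 h.ge)
  · rintro rfl; rfl

theorem cj_inf (g : G) (K L : Subgroup G) : cj g (K ⊓ L) = cj g K ⊓ cj g L := by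
  ext x; simp [mem_cj, Subgroup.mem_inf]

theorem card_cj (g : G) (K : Subgroup G) : Nat.card (cj g K) = Nat.card K :=
  (Nat.card_congr (K.equivMapOfInjective _ (MulAut.conj g).injective).toEquiv).symm

theorem cj_eq_self {g : G} {K : Subgroup G} (h : g ∈ normalizer (K : Set G)) : cj g K = K := by
  ext x
  rw [mem_cj, ← SetLike.mem_coe, ← SetLike.mem_coe]
  exact (Subgroup.mem_normalizer_iff''.1 h x).symm

theorem isPGroup_cj {p : ℕ} {g : G} {K : Subgroup G} (h : IsPGroup p K) : IsPGroup p (cj g K) :=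
  h.map _

theorem cj_bot (g : G) : cj g (⊥ : Subgroup G) = ⊥ := by
  ext x; simp [mem_cj, Subgroup.mem_bot, mul_assoc, mul_eq_one_iff_eq_inv]

/-- `x` normalises `K` if it maps `K` into itself -/
theorem mem_norm [Finite G] {K : Subgroup G} {x : G} (h : ∀ k ∈ K, x * k * x⁻¹ ∈ K) :
    x ∈ normalizer (K : Set G) := by
  have h1 : cj x K ≤ K := by
    rintro y hy
    rw [mem_cj] at hy
    have := h _ hy
    simpa [mul_assoc] using this
  have h2 : cj x K = K := Subgroup.eq_of_le_of_card_ge h1 (card_cj x K).ge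
  rw [Subgroup.mem_normalizer_iff'']
  intro y
  rw [← mem_cj, h2]

theorem norm_mem {K : Subgroup G} {x k : G} (hx : x ∈ normalizer (K : Set G)) (hk : k ∈ K) :
    x * k * x⁻¹ ∈ K := (Subgroup.mem_normalizer_iff.1 hx k).1 hk

theorem norm_mem' {K : Subgroup G} {x k : G} (hx : x ∈ normalizer (K : Set G)) (hk : k ∈ K) :
    x⁻¹ * k * x ∈ K := (Subgroup.mem_normalizer_iff''.1 hx k).1 hk

/-- the subgroup generated by the elements of `q` power order of `K` -/
def qp (q : ℕ) (K : Subgroup G) : Subgroup G :=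
  Subgroup.closure {x | x ∈ K ∧ ∃ k : ℕ, x ^ q ^ k = 1}

theorem mem_qp {q : ℕ} {K : Subgroup G} {x : G} {k : ℕ} (hx : x ∈ K) (hk : x ^ q ^ k = 1) :
    x ∈ qp q K := Subgroup.subset_closure ⟨hx, k, hk⟩

theorem qp_le (q : ℕ) (K : Subgroup G) : qp q K ≤ K :=
  (Subgroup.closure_le _).2 fun _ hx => hx.1

theorem le_qp {q : ℕ} {K S : Subgroup G} (hS : IsPGroup q S) (hSK : S ≤ K) : S ≤ qp q K := by
  intro x hx
  obtain ⟨k, hk⟩ := hS ⟨x, hx⟩
  exact mem_qp (hSK hx) (by simpa using congrArg Subtype.val hk)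

/-- `qp q K` is stable under everything that normalises `K` -/
theorem qp_conj {q : ℕ} {K : Subgroup G} {g : G} (hg : ∀ x ∈ K, g * x * g⁻¹ ∈ K) {x : G}
    (hx : x ∈ qp q K) : g * x * g⁻¹ ∈ qp q K := by
  induction hx using Subgroup.closure_induction with
  | mem x hx =>
    obtain ⟨h1, k, hk⟩ := hx
    refine mem_qp (k := k) (hg x h1) ?_
    rw [conj_pow, hk]; simp
  | one => simp
  | mul x y _ _ hx hy =>
    have : g * (x * y) * g⁻¹ = (g * x * g⁻¹) * (g * y * g⁻¹) := by group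
    rw [this]; exact mul_mem hx hy
  | inv x _ hx =>
    have : g * x⁻¹ * g⁻¹ = (g * x * g⁻¹)⁻¹ := by group
    rw [this]; exact inv_mem hx

/-- in a finite nilpotent subgroup the elements of `q` power order form a subgroup -/
theorem isPGroup_qp [Finite G] {q : ℕ} (hq : q.Prime) {K : Subgroup G}
    (hK : Group.IsNilpotent K) : IsPGroup q (qp q K) := by
  have : Fact q.Prime := ⟨hq⟩
  obtain ⟨Q⟩ := (inferInstance : Nonempty (Sylow q K))
  have hn : (Q : Subgroup K).Normal :=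
    Group.isNilpotent_of_finite_tfae.out 0 3 rfl rfl |>.mp hK q ⟨hq⟩ Q
  have h1 : qp q K ≤ (Q : Subgroup K).map K.subtype := by
    refine (Subgroup.closure_le _).2 ?_
    rintro x ⟨hx, k, hk⟩
    have h2 : IsPGroup q (Subgroup.zpowers (⟨x, hx⟩ : K)) := by
      rintro ⟨y, n, rfl⟩
      refine ⟨k, Subtype.ext (Subtype.ext ?_)⟩
      simp only [Subgroup.coe_pow, Subgroup.coe_zpow, Subgroup.coe_one]
      rw [← zpow_natCast, ← zpow_mul, mul_comm, zpow_mul, zpow_natCast, hk, one_zpow]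
    obtain ⟨R, hR⟩ := h2.exists_le_sylow
    have h3 : R = Q := by
      let _ := Sylow.unique_of_normal Q hn
      exact Subsingleton.elim _ _
    rw [h3] at hR
    exact ⟨⟨x, hx⟩, hR (Subgroup.mem_zpowers _), rfl⟩
  exact (Q.isPGroup'.map _).to_le h1

/-- two subgroups normalising each other, with trivial intersection, commute -/
theorem comm_of_inf {A B : Subgroup G} (hA : ∀ a ∈ A, ∀ b ∈ B, b * a * b⁻¹ ∈ A)
    (hB : ∀ a ∈ A, ∀ b ∈ B, a * b * a⁻¹ ∈ B) (h : A ⊓ B = ⊥) {a b : G} (ha : a ∈ A)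
    (hb : b ∈ B) : a * b = b * a := by
  have h1 : a * b * a⁻¹ * b⁻¹ ∈ A ⊓ B := by
    refine ⟨?_, ?_⟩
    · have : a * b * a⁻¹ * b⁻¹ = a * (b * a⁻¹ * b⁻¹) := by group
      rw [this]
      exact A.mul_mem ha (hA _ (A.inv_mem ha) _ hb)
    · exact B.mul_mem (hB _ ha _ hb) (B.inv_mem hb)
  rw [h, Subgroup.mem_bot] at h1
  have h2 : a * b * (b * a)⁻¹ = 1 := by rw [mul_inv_rev]; simpa [mul_assoc] using h1
  exact mul_inv_eq_one.1 h2

theorem inf_eq_bot [Finite G] {p q : ℕ} (hp : p.Prime) (hq : q.Prime) (hpq : p ≠ q)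
    {A B : Subgroup G} (hA : IsPGroup p A) (hB : IsPGroup q B) : A ⊓ B = ⊥ := by
  have : Fact p.Prime := ⟨hp⟩
  have : Fact q.Prime := ⟨hq⟩
  exact (IsPGroup.disjoint_of_ne p q hpq A B hA hB).eq_bot

theorem nilp_comm {H : Subgroup G} (h : Group.IsNilpotent (commutator H)) :
    Group.IsNilpotent (⁅H, H⁆ : Subgroup G) := by
  have h1 : (commutator H).map H.subtype = ⁅H, H⁆ := by
    rw [commutator_def, Subgroup.map_commutator, ← MonoidHom.range_eq_map, Subgroup.range_subtype]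
  rw [← h1]
  exact (Group.isNilpotent_congr
    ((commutator H).equivMapOfInjective _ H.subtype_injective)).1 h

end Pool.Agent.H91.FT
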