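import Pool.Agent.H91.FT.Un

/-!
A maximal invariant `q` subgroup of a Sylow `p` subgroup `P` which is not centralised by `P` is a
Sylow subgroup (2.4); properties of the relation `P → Q` (2.5).
-/

namespace Pool.Agent.H91.FT

open Subgroup
open scoped commutatorElement

variable {G : Type*} [Group G]

/-- `P → Q` -/
def Arr {p q : ℕ} (P : Sylow p G) (Q : Sylow q G) : Prop :=
  (P : Subgroup G) ≤ normalizer (Q : Set G) ∧ ∃ x ∈ P, ∃ y ∈ Q, x * y ≠ y * x

theorem relIndex_not_dvd {N : Type*} [Group N] [Finite N] {q : ℕ} [Fact q.Prime]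
    {K Y : Subgroup N} (h : ∀ W : Subgroup N, W ≤ Y → IsPGroup q W → W ≤ K) :
    ¬ q ∣ K.relIndex Y := by
  intro hd
  obtain ⟨W⟩ := (inferInstance : Nonempty (Sylow q Y))
  have h1 : (W : Subgroup Y) ≤ K.subgroupOf Y := by
    intro x hx
    rw [Subgroup.mem_subgroupOf]
    refine h ((W : Subgroup Y).map Y.subtype) ?_ (W.2.map _) ⟨x, hx, rfl⟩
    rintro _ ⟨y, _, rfl⟩
    exact y.2
  exact W.not_dvd_index (hd.trans (Subgroup.index_dvd_of_le h1))

theorem index_not_dvd {N : Type*} [Group N] [Finite N] {q : ℕ} [Fact q.Prime]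
    {K Y L : Subgroup N} [K.Normal] [Y.Normal] (hN : L ⊔ Y = ⊤)
    (hY : ∀ W : Subgroup N, W ≤ Y → IsPGroup q W → W ≤ K)
    (hL : ∀ W : Subgroup N, W ≤ L → IsPGroup q W → W ≤ K) : ¬ q ∣ K.index := by
  have hq : q.Prime := Fact.out
  have e1 : K.relIndex (K ⊔ Y) * (K ⊔ Y).relIndex ⊤ = K.relIndex ⊤ :=
    Subgroup.relIndex_mul_relIndex _ _ _ le_sup_left le_top
  have e2 : (K ⊔ Y).relIndex ⊤ = (K ⊔ Y).relIndex L := by
    have h1 : L ⊔ (K ⊔ Y) = ⊤ := by
      rw [eq_top_iff, ← hN]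
      exact sup_le_sup le_rfl le_sup_right
    rw [← h1, Subgroup.relIndex_sup_right]
  rw [e2, Subgroup.relIndex_sup_left, Subgroup.relIndex_top_right] at e1
  intro hd
  rw [← e1] at hd
  rcases hq.dvd_mul.1 hd with h | h
  · exact relIndex_not_dvd hY h
  · exact relIndex_not_dvd hL (h.trans (Subgroup.relIndex_dvd_of_le_left _ le_sup_left))

/-- the normal `p` subgroup generated by the `p` elements of the derived subgroup -/
theorem dq_facts [Finite G] {p : ℕ} (hp : p.Prime) {H : Subgroup G}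
    (hH : Group.IsNilpotent (commutator H)) : IsPGroup p (qp p ⁅H, H⁆) ∧ qp p ⁅H, H⁆ ≤ H ∧
      (∀ h ∈ H, ∀ x ∈ qp p ⁅H, H⁆, h * x * h⁻¹ ∈ qp p ⁅H, H⁆) := by
  have hDn : ∀ h ∈ H, ∀ x ∈ qp p ⁅H, H⁆, h * x * h⁻¹ ∈ qp p ⁅H, H⁆ := fun h hh x hx =>
    qp_conj (fun y hy => comm_conj (fun z hz => H.mul_mem (H.mul_mem hh hz) (H.inv_mem hh))
      (fun z hz => H.mul_mem (H.mul_mem hh hz) (H.inv_mem hh)) hy) hx
  have hDN : qp p ⁅H, H⁆ ≤ H := (qp_le _ _).trans (comm_le_left fun a ha x hx =>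
    H.mul_mem (H.mul_mem ha hx) (H.inv_mem ha))
  exact ⟨isPGroup_qp hp (nilp_comm hH), hDN, hDn⟩

/-- a `p` element of the derived subgroup of `H` centralises every normal `q` subgroup -/
theorem dq_comm [Finite G] {p q : ℕ} (hp : p.Prime) (hq : q.Prime) (hpq : p ≠ q)
    {H K : Subgroup G} (hH : Group.IsNilpotent (commutator H)) (hKH : K ≤ H)
    (hK : IsPGroup q K) (hKn : ∀ h ∈ H, ∀ x ∈ K, h * x * h⁻¹ ∈ K) {x k : G} (hx : x ∈ qp p ⁅H, H⁆)
    (hk : k ∈ K) : x * k = k * x := by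
  obtain ⟨h1, h2, h3⟩ := dq_facts hp hH
  exact comm_of_inf (A := qp p ⁅H, H⁆) (B := K) (fun a ha b hb => h3 b (hKH hb) a ha)
    (fun a ha b hb => hKn a (h2 ha) b hb) (inf_eq_bot hp hq hpq h1 hK) hx hk

/-- `P` normal in `H`, abelian Sylow subgroup: the derived subgroup of `H` centralises `P` -/
theorem ab_cent [Finite G] {p : ℕ} [Fact p.Prime] {P : Sylow p G} {H : Subgroup G}
    (hH : Group.IsNilpotent (commutator H)) (hPH : (P : Subgroup G) ≤ H)
    (hHP : H ≤ normalizer (P : Set G)) (hab : ∀ x ∈ P, ∀ y ∈ P, x * y = y * x) {z x : G}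
    (hz : z ∈ (⁅H, H⁆ : Subgroup G)) (hx : x ∈ P) : z * x = x * z := by
  obtain ⟨y, u, hyu, hy, hu, ⟨k, hk⟩, huc⟩ := H51.FT.exists_decomp p z
  obtain ⟨K, hK⟩ := H51.FT.exists_isKp (p := p) hH
  have hyc : y ∈ (⁅H, H⁆ : Subgroup G) := (zpowers_le.2 hz) hy
  have huK : u ∈ K := (hK.mem u).2 ⟨(zpowers_le.2 hz) hu, huc⟩
  have h1 := hK.le_centralizer (E := (P : Subgroup G)) hPH P.2 hHP huK
  rw [mem_centralizer_iff] at h1
  have h2 : x * u = u * x := h1 x hx
  -- `y ∈ P`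
  have hyP : y ∈ P := by
    obtain ⟨D1, D2, D3⟩ := dq_facts (p := p) Fact.out hH
    have h3 : IsPGroup p (qp p ⁅H, H⁆ ⊔ (P : Subgroup G) : Subgroup G) :=
      IsPGroup.to_sup_of_normal_left' D1 P.2 (fun a ha => mem_norm (D3 a (hPH ha)))
    have h4 := P.3 h3 le_sup_right
    have h5 : y ∈ (qp p ⁅H, H⁆ ⊔ (P : Subgroup G) : Subgroup G) :=
      (le_sup_left : qp p ⁅H, H⁆ ≤ _) (mem_qp hyc hk)
    rw [h4] at h5
    exact h5
  have h3 := hab y hyP x hx
  rw [hyu]
  calc y * u * x = y * (u * x) := by group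
    _ = (y * x) * u := by rw [← h2]; group
    _ = x * (y * u) := by rw [h3]; group

/-- for `P` abelian, `[P, W]` is invariant under `N(P)`, `W ≤ N(P)` -/
theorem comm_inv [Finite G] {p : ℕ} [Fact p.Prime] {P : Sylow p G}
    (hM : Group.IsNilpotent (commutator (normalizer (P : Set G))))
    (hab : ∀ x ∈ P, ∀ y ∈ P, x * y = y * x) {W : Subgroup G} (hW : W ≤ normalizer (P : Set G)) :
    normalizer (P : Set G) ≤ normalizer ((⁅(P : Subgroup G), W⁆ : Subgroup G) : Set G) := by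
  intro n hn
  refine mem_norm fun z hz => ?_
  have h1 : cj n ⁅(P : Subgroup G), W⁆ ≤ ⁅(P : Subgroup G), W⁆ := by
    have h2 : cj n ⁅(P : Subgroup G), W⁆ = ⁅cj n (P : Subgroup G), cj n W⁆ := by
      unfold cj; rw [Subgroup.map_commutator]
    rw [h2, Subgroup.commutator_le]
    intro x hx w' hw'
    rw [cj_eq_self hn] at hx
    rw [mem_cj] at hw'
    set w := n⁻¹ * w' * n with hw
    have h3 : w' = n * w * n⁻¹ := by rw [hw]; group
    have hwN : w ∈ normalizer (P : Set G) := hW hw'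
    -- `w⁻¹ n w n⁻¹` centralises `P`
    have hc : w⁻¹ * n * w * n⁻¹ ∈ (⁅normalizer (P : Set G), normalizer (P : Set G)⁆ :
        Subgroup G) := by
      have := Subgroup.commutator_mem_commutator (inv_mem hwN) hn
      rw [commutatorElement_def] at this
      simpa using this
    have hcx := ab_cent hM le_normalizer le_rfl hab hc ((P : Subgroup G).inv_mem hx)
    have h4 : ⁅x, w'⁆ = ⁅x, w⁆ := by
      rw [commutatorElement_def, commutatorElement_def, h3]
      calc x * (n * w * n⁻¹) * x⁻¹ * (n * w * n⁻¹)⁻¹ =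
          x * w * ((w⁻¹ * n * w * n⁻¹) * x⁻¹) * (w⁻¹ * n * w * n⁻¹)⁻¹ * w⁻¹ := by group
        _ = x * w * (x⁻¹ * (w⁻¹ * n * w * n⁻¹)) * (w⁻¹ * n * w * n⁻¹)⁻¹ * w⁻¹ := by rw [hcx]
        _ = x * w * x⁻¹ * w⁻¹ := by group
    rw [h4]
    exact Subgroup.commutator_mem_commutator hx hw'
  exact h1 (cj_mem_cj hz)

section
variable [Finite G] [IsSimpleGroup G]

theorem sylow_ne_top (hG : commutator G = ⊤) {p : ℕ} [Fact p.Prime] {X : Subgroup G}
    (hX : IsPGroup p X) (hX0 : X ≠ ⊥) : X ≠ ⊤ := by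
  intro h
  apply H51.FT.normalizer_ne_top hG hX hX0
  rw [eq_top_iff, ← h]
  exact le_normalizer

/-- `N(P)` is the normaliser of every nontrivial `N(P)` invariant subgroup of `P` -/
theorem norm_eq (hG : commutator G = ⊤)
    (hNA : ∀ H : Subgroup G, H < ⊤ → Group.IsNilpotent (commutator H)) {p : ℕ} [Fact p.Prime]
    (P : Sylow p G) {X : Subgroup G} (hXP : X ≤ P) (hX : X ≠ ⊥)
    (hinv : normalizer (P : Set G) ≤ normalizer (X : Set G)) :
    normalizer (X : Set G) = normalizer (P : Set G) := by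
  refine H51.FT.normalizer_eq_of_inv (H51.FT.sylC hG hNA) hG hNA P hX
    (sylow_ne_top hG (P.2.to_le hXP) hX) ?_ hinv
  intro h
  rw [h, le_bot_iff] at hXP
  exact hX hXP

/-- (2.4) -/
theorem two_four (hG : commutator G = ⊤)
    (hNA : ∀ H : Subgroup G, H < ⊤ → Group.IsNilpotent (commutator H)) {p q : ℕ} [Fact p.Prime]
    [Fact q.Prime] (hpq : p ≠ q) (P : Sylow p G) {K : Subgroup G}
    (hK : MInv (P : Subgroup G) q K) {x k : G} (hx : x ∈ P) (hk : k ∈ K) (hxk : x * k ≠ k * x) :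
    ∃ Q : Sylow q G, (Q : Subgroup G) = K := by
  have hp : p.Prime := Fact.out
  have hq : q.Prime := Fact.out
  have hw : ¬ Wide p (P : Subgroup G) := fun hw => hxk (two_two hG hNA hpq P hw hK.1 hx hk)
  have hab : ∀ x ∈ P, ∀ y ∈ P, x * y = y * x := by
    intro a ha b hb
    by_contra h
    exact hw (Or.inl ⟨a, ha, b, hb, h⟩)
  have hK0 : K ≠ ⊥ := by
    rintro rfl
    rw [Subgroup.mem_bot] at hk
    exact hxk (by rw [hk]; simp)
  set N : Subgroup G := normalizer (K : Set G) with hN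
  have hNt : N < ⊤ := lt_top_iff_ne_top.2 (H51.FT.normalizer_ne_top hG hK.1.1 hK0)
  have hPN : (P : Subgroup G) ≤ N := fun a ha => mem_norm (hK.1.2 a ha)
  have hP0 : (P : Subgroup G) ≠ ⊥ := by
    intro h
    have : x ∈ (P : Subgroup G) := hx
    rw [h, Subgroup.mem_bot] at this
    exact hxk (by rw [this]; simp)
  have hKN : K ≤ N := le_normalizer
  have hNN := hNA N hNt
  have hMN : Group.IsNilpotent (commutator (normalizer (P : Set G))) :=
    hNA _ (lt_top_iff_ne_top.2 (H51.FT.normalizer_ne_top hG P.2 hP0))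
  -- every `q` subgroup of `N ∩ N(P)` lies in `K`
  have main : ∀ W : Subgroup G, W ≤ N → W ≤ normalizer (P : Set G) → IsPGroup q W → W ≤ K := by
    intro W hWN hWP hWq
    by_contra hWK
    -- `W` does not centralise `P`
    have hne : (⁅(P : Subgroup G), W⁆ : Subgroup G) ≠ ⊥ := by
      intro h0
      apply hWK
      have hS : IsPGroup q (K ⊔ W : Subgroup G) :=
        IsPGroup.to_sup_of_normal_left' hK.1.1 hWq hWN
      have h1 : Inv (P : Subgroup G) q (K ⊔ W) := by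
        refine ⟨hS, fun a ha y hy => norm_sup_mem (hK.1.2 a ha) ?_ hy⟩
        intro w hw
        have h2 := Subgroup.commutator_mem_commutator ha hw
        rw [h0, Subgroup.mem_bot, commutatorElement_eq_one_iff_mul_comm] at h2
        rw [h2]; simpa using hw
      rw [← hK.2 _ h1 le_sup_left]
      exact le_sup_right
    have hle : (⁅(P : Subgroup G), W⁆ : Subgroup G) ≤ P :=
      comm_le_left fun a ha y hy => norm_mem (hWP ha) hy
    have hcK : ∀ y ∈ (⁅(P : Subgroup G), W⁆ : Subgroup G), ∀ z ∈ K, y * z = z * y := by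
      intro y hy z hz
      refine dq_comm hp hq hpq hNN hKN hK.1.1 (fun h hh a ha => norm_mem hh ha) ?_ hz
      exact le_qp (P.2.to_le hle) (Subgroup.commutator_mono hPN hWN) hy
    have hn := norm_eq hG hNA P hle hne (comm_inv hMN hab hWP)
    -- `K ≤ N(P)`
    have hKP : K ≤ normalizer (P : Set G) := by
      rw [← hn]
      intro z hz
      refine mem_norm fun y hy => ?_
      rw [← hcK y hy z hz]; simpa using hy
    exact hxk (comm_of_inf (A := (P : Subgroup G)) (B := K)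
      (fun a ha b hb => norm_mem (hKP hb) ha) (fun a ha b hb => hK.1.2 a ha b hb)
      (inf_eq_bot hp hq hpq P.2 hK.1.1) hx hk)
  -- `K` has index prime to `q` in `N`
  obtain ⟨Y, hY⟩ := H51.FT.exists_isKp (p := p) hNN
  have hSyl : H51.FT.IsSyl p N (P : Subgroup G) := ⟨hPN, P.2, fun T _ hTp hPT => P.3 hTp hPT⟩
  have hidx : ¬ q ∣ (K.subgroupOf N).index := by
    have i1 : (K.subgroupOf N).Normal := ⟨fun n hn g => by
      rw [Subgroup.mem_subgroupOf] at hn ⊢
      exact norm_mem g.2 hn⟩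
    have i2 : (Y.subgroupOf N).Normal := ⟨fun n hn g => by
      rw [Subgroup.mem_subgroupOf] at hn ⊢
      exact norm_mem (hY.le_normalizer g.2) hn⟩
    refine index_not_dvd (L := (N ⊓ normalizer (P : Set G)).subgroupOf N) (Y := Y.subgroupOf N)
      ?_ ?_ ?_
    · rw [eq_top_iff]
      intro g _
      obtain ⟨k, hk, n, hn, he⟩ := hY.le_sup_normalizer hNN hSyl g g.2
      have h1 : g = (⟨k, hY.le hk⟩ : N) * ⟨n, (Subgroup.mem_inf.1 hn).1⟩ := Subtype.ext he
      rw [h1]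
      exact mul_mem ((le_sup_right : Y.subgroupOf N ≤ _) hk)
        ((le_sup_left : (N ⊓ normalizer (P : Set G)).subgroupOf N ≤ _) hn)
    · intro W hW hWq w hw
      rw [Subgroup.mem_subgroupOf]
      obtain ⟨D1, D2, D3⟩ := dq_facts (p := q) hq hNN
      have h1 : qp q ⁅N, N⁆ ≤ K := by
        have h2 : Inv (P : Subgroup G) q (K ⊔ qp q ⁅N, N⁆) := by
          refine ⟨IsPGroup.to_sup_of_normal_left' hK.1.1 D1 D2, fun a ha y hy => ?_⟩
          exact norm_sup_mem (hK.1.2 a ha) (D3 a (hPN ha)) hy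
        rw [← hK.2 _ h2 le_sup_left]
        exact le_sup_right
      obtain ⟨j, hj⟩ := hWq ⟨w, hw⟩
      have hj' : (w : G) ^ q ^ j = 1 := by
        have := congrArg (fun z : W => ((z : N) : G)) hj
        simpa using this
      exact h1 (mem_qp (hY.le_comm (hW hw)) hj')
    · intro W hW hWq w hw
      rw [Subgroup.mem_subgroupOf]
      refine main (W.map N.subtype) ?_ ?_ (hWq.map _) ⟨w, hw, rfl⟩
      · rintro _ ⟨y, _, rfl⟩; exact y.2
      · rintro _ ⟨y, hy, rfl⟩
        exact (Subgroup.mem_inf.1 (hW hy)).2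
  obtain ⟨Q, hKQ⟩ := hK.1.1.exists_le_sylow
  refine ⟨Q, ?_⟩
  by_contra hne
  have hlt : K < Q := lt_of_le_of_ne hKQ (fun h => hne h.symm)
  have h1 := H51.FT.lt_inf_normalizer Q.2 hlt
  have h2 : K.relIndex ((Q : Subgroup G) ⊓ N) * ((Q : Subgroup G) ⊓ N).relIndex N =
      K.relIndex N := Subgroup.relIndex_mul_relIndex _ _ _ h1.le inf_le_right
  apply hidx
  have h3 : (K.subgroupOf N).index = K.relIndex N := rfl
  rw [h3, ← h2]
  refine Dvd.dvd.mul_right ?_ _
  have hU : IsPGroup q ((Q : Subgroup G) ⊓ N : Subgroup G) := Q.2.to_le inf_le_left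
  obtain ⟨j, hj⟩ := hU.index (K.subgroupOf ((Q : Subgroup G) ⊓ N))
  have h4 : K.relIndex ((Q : Subgroup G) ⊓ N) = q ^ j := hj
  rw [h4]
  rcases Nat.eq_zero_or_pos j with rfl | hj0
  · rw [pow_zero, Subgroup.relIndex_eq_one] at h4
    exact absurd h4 (not_le_of_gt h1)
  · exact dvd_pow_self q hj0.ne'

/-- (2.4), for an invariant subgroup which need not be maximal -/
theorem exists_arr (hG : commutator G = ⊤)
    (hNA : ∀ H : Subgroup G, H < ⊤ → Group.IsNilpotent (commutator H)) {p q : ℕ} [Fact p.Prime]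
    [Fact q.Prime] (hpq : p ≠ q) (P : Sylow p G) {K : Subgroup G}
    (hK : Inv (P : Subgroup G) q K) {x k : G} (hx : x ∈ P) (hk : k ∈ K) (hxk : x * k ≠ k * x) :
    ∃ Q : Sylow q G, K ≤ Q ∧ Arr P Q := by
  obtain ⟨L, hL, hKL⟩ := exists_mInv hK
  obtain ⟨Q, hQ⟩ := two_four hG hNA hpq P hL hx (hKL hk) hxk
  refine ⟨Q, by rw [hQ]; exact hKL, ?_, x, hx, k, ?_, hxk⟩
  · intro a ha
    have h1 : a ∈ normalizer ((L : Subgroup G) : Set G) := mem_norm (hL.1.2 a ha)
    rw [← hQ] at h1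
    exact h1
  · have h1 : k ∈ (Q : Subgroup G) := by rw [hQ]; exact hKL hk
    exact h1

omit [Finite G] [IsSimpleGroup G] in
theorem Arr.toInv {p q : ℕ} {P : Sylow p G} {Q : Sylow q G} (h : Arr P Q) :
    Inv (P : Subgroup G) q (Q : Subgroup G) :=
  ⟨Q.2, fun _ ha _ hx => norm_mem (h.1 ha) hx⟩

theorem Arr.not_wide (hG : commutator G = ⊤)
    (hNA : ∀ H : Subgroup G, H < ⊤ → Group.IsNilpotent (commutator H)) {p q : ℕ} [Fact p.Prime]
    [Fact q.Prime] (hpq : p ≠ q) {P : Sylow p G} {Q : Sylow q G} (h : Arr P Q) :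
    ¬ Wide p (P : Subgroup G) := by
  intro hw
  obtain ⟨x, hx, y, hy, hxy⟩ := h.2
  exact hxy (two_two hG hNA hpq P hw h.toInv hx hy)

/-- (2.5) `P` is abelian -/
theorem Arr.comm (hG : commutator G = ⊤)
    (hNA : ∀ H : Subgroup G, H < ⊤ → Group.IsNilpotent (commutator H)) {p q : ℕ} [Fact p.Prime]
    [Fact q.Prime] (hpq : p ≠ q) {P : Sylow p G} {Q : Sylow q G} (h : Arr P Q) {x y : G}
    (hx : x ∈ P) (hy : y ∈ P) : x * y = y * x := by
  by_contra hxy
  exact h.not_wide hG hNA hpq (Or.inl ⟨x, hx, y, hy, hxy⟩)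

omit [IsSimpleGroup G] in
/-- elementary abelian subgroups have order at most `p ^ 2` if there is none of order `p ^ 3` -/
theorem el_card_le {p : ℕ} [Fact p.Prime] {P : Subgroup G}
    (h : ¬ ∃ E ≤ P, El p E ∧ Nat.card E = p ^ 3) {E : Subgroup G} (hE : E ≤ P) (hel : El p E) :
    Nat.card E ≤ p ^ 2 := by
  have hp : p.Prime := Fact.out
  obtain ⟨k, hk⟩ := (IsPGroup.iff_card).1 (isPGroup_of_exp hel.1)
  by_contra hlt
  push Not at hlt
  have hk3 : 3 ≤ k := by
    by_contra hk3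
    have : k ≤ 2 := by omega
    have h1 : Nat.card E ≤ p ^ 2 := by rw [hk]; exact Nat.pow_le_pow_right hp.pos this
    omega
  obtain ⟨F, hF⟩ := Sylow.exists_subgroup_card_pow_prime (G := E) p (n := 3)
    (by rw [hk]; exact Nat.pow_dvd_pow p hk3)
  apply h
  have hFE : F.map E.subtype ≤ E := by
    rintro _ ⟨y, _, rfl⟩; exact y.2
  refine ⟨F.map E.subtype, hFE.trans hE, ⟨fun x hx => hel.1 x (hFE hx),
    fun x hx y hy => hel.2 x (hFE hx) y (hFE hy)⟩, ?_⟩
  rw [← hF]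
  exact (Nat.card_congr (F.equivMapOfInjective _ E.subtype_injective).toEquiv).symm

/-- (2.5) `P` has rank at most two -/
theorem Arr.rank (hG : commutator G = ⊤)
    (hNA : ∀ H : Subgroup G, H < ⊤ → Group.IsNilpotent (commutator H)) {p q : ℕ} [Fact p.Prime]
    [Fact q.Prime] (hpq : p ≠ q) {P : Sylow p G} {Q : Sylow q G} (h : Arr P Q)
    {E : Subgroup G} (hE : E ≤ P) (hel : El p E) : Nat.card E ≤ p ^ 2 :=
  el_card_le (fun h1 => h.not_wide hG hNA hpq (Or.inr h1)) hE hel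

/-- (2.5) no nontrivial `N(P)` invariant subgroup of `P` centralises `Q` -/
theorem Arr.inv (hG : commutator G = ⊤)
    (hNA : ∀ H : Subgroup G, H < ⊤ → Group.IsNilpotent (commutator H)) {p q : ℕ} [Fact p.Prime]
    [Fact q.Prime] (hpq : p ≠ q) {P : Sylow p G} {Q : Sylow q G} (h : Arr P Q)
    {X : Subgroup G} (hXP : X ≤ P) (hinv : normalizer (P : Set G) ≤ normalizer (X : Set G))
    (hc : ∀ x ∈ X, ∀ y ∈ Q, x * y = y * x) : X = ⊥ := by
  by_contra hX
  have hn := norm_eq hG hNA P hXP hX hinv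
  have hQP : (Q : Subgroup G) ≤ normalizer (P : Set G) := by
    rw [← hn]
    intro z hz
    refine mem_norm fun y hy => ?_
    rw [← hc y hy z hz]; simpa using hy
  obtain ⟨x, hx, y, hy, hxy⟩ := h.2
  exact hxy (comm_of_inf (A := (P : Subgroup G)) (B := (Q : Subgroup G))
    (fun a ha b hb => norm_mem (hQP hb) ha) (fun a ha b hb => norm_mem (h.1 ha) hb)
    (inf_eq_bot Fact.out Fact.out hpq P.2 Q.2) hx hy)

/-- (2.5) not all elements of order `p` of `P` centralise `Q` -/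
theorem Arr.omega (hG : commutator G = ⊤)
    (hNA : ∀ H : Subgroup G, H < ⊤ → Group.IsNilpotent (commutator H)) {p q : ℕ} [Fact p.Prime]
    [Fact q.Prime] (hpq : p ≠ q) {P : Sylow p G} {Q : Sylow q G} (h : Arr P Q) :
    ∃ x ∈ P, x ^ p = 1 ∧ ∃ y ∈ Q, x * y ≠ y * x := by
  by_contra hcon
  push Not at hcon
  have hab : ∀ x ∈ P, ∀ y ∈ P, x * y = y * x := fun x hx y hy => h.comm hG hNA hpq hx hy
  let X : Subgroup G :=
    { carrier := {x | x ∈ P ∧ x ^ p = 1}
      one_mem' := ⟨(P : Subgroup G).one_mem, one_pow p⟩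
      mul_mem' := fun {a b} ha hb => ⟨(P : Subgroup G).mul_mem ha.1 hb.1, by
        rw [(show Commute a b from hab a ha.1 b hb.1).mul_pow, ha.2, hb.2, one_mul]⟩
      inv_mem' := fun {a} ha => ⟨(P : Subgroup G).inv_mem ha.1, by rw [inv_pow, ha.2, inv_one]⟩ }
  have hXP : X ≤ P := fun x hx => hx.1
  have hX := h.inv hG hNA hpq (X := X) hXP (fun n hn => mem_norm fun x hx => by
    refine ⟨norm_mem hn hx.1, ?_⟩
    rw [conj_pow, hx.2]; simp) (fun x hx y hy => hcon x hx.1 hx.2 y hy)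
  obtain ⟨x, hx, y, hy, hxy⟩ := h.2
  have hx1 : x ≠ 1 := by
    rintro rfl
    exact hxy (by simp)
  -- a power of `x` of order `p`
  obtain ⟨k, hk⟩ := P.2 ⟨x, hx⟩
  have hk' : x ^ p ^ k = 1 := by simpa using congrArg Subtype.val hk
  have hp : p.Prime := Fact.out
  have key : ∀ (j : ℕ) (z : G), z ∈ P → z ^ p ^ j = 1 → z = 1 := by
    intro j
    induction j with
    | zero => intro z _ hz; simpa using hz
    | succ j ih =>
      intro z hz hzj
      have h1 : z ^ p = 1 := ih (z ^ p) ((P : Subgroup G).pow_mem hz p) (by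
        rw [← pow_mul, ← pow_succ']; exact hzj)
      have h2 : z ∈ X := ⟨hz, h1⟩
      rw [hX, Subgroup.mem_bot] at h2
      exact h2
  exact hx1 (key k x hx hk')

/-- (2.5) -/
theorem Arr.inf_le (hG : commutator G = ⊤)
    (hNA : ∀ H : Subgroup G, H < ⊤ → Group.IsNilpotent (commutator H)) {p q : ℕ} [Fact p.Prime]
    [Fact q.Prime] (hpq : p ≠ q) {P : Sylow p G} {Q : Sylow q G} (h : Arr P Q) {m x : G}
    (hmP : m ∈ normalizer (P : Set G)) (hmQ : m ∈ normalizer (Q : Set G)) (hx : x ∈ P) :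
    m * x = x * m := by
  have hp : p.Prime := Fact.out
  have hq : q.Prime := Fact.out
  have hab : ∀ x ∈ P, ∀ y ∈ P, x * y = y * x := fun x hx y hy => h.comm hG hNA hpq hx hy
  obtain ⟨a0, ha0, b0, hb0, hab0⟩ := h.2
  have hP0 : (P : Subgroup G) ≠ ⊥ := by
    intro h0
    have : a0 ∈ (P : Subgroup G) := ha0
    rw [h0, Subgroup.mem_bot] at this
    exact hab0 (by rw [this]; simp)
  have hQ0 : (Q : Subgroup G) ≠ ⊥ := by
    intro h0
    have : b0 ∈ (Q : Subgroup G) := hb0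
    rw [h0, Subgroup.mem_bot] at this
    exact hab0 (by rw [this]; simp)
  have hMP : Group.IsNilpotent (commutator (normalizer (P : Set G))) :=
    hNA _ (lt_top_iff_ne_top.2 (H51.FT.normalizer_ne_top hG P.2 hP0))
  have hMQ : Group.IsNilpotent (commutator (normalizer (Q : Set G))) :=
    hNA _ (lt_top_iff_ne_top.2 (H51.FT.normalizer_ne_top hG Q.2 hQ0))
  obtain ⟨y, u, hyu, hy, hu, ⟨k, hk⟩, huc⟩ := H51.FT.exists_decomp p m
  -- the `p` part lies in `P`
  have hyN : y ∈ normalizer (P : Set G) := (zpowers_le.2 hmP) hy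
  have hyP : y ∈ P := by
    have h1 : IsPGroup p (zpowers y) := Pool.Agent.H3.FT.zpowers_pgroup hk
    have h3 : IsPGroup p ((P : Subgroup G) ⊔ zpowers y : Subgroup G) :=
      IsPGroup.to_sup_of_normal_left' P.2 h1 (zpowers_le.2 hyN)
    have h4 := P.3 h3 le_sup_left
    have h5 : y ∈ ((P : Subgroup G) ⊔ zpowers y : Subgroup G) :=
      (le_sup_right : zpowers y ≤ _) (mem_zpowers y)
    rw [h4] at h5
    exact h5
  -- the `p'` part centralises `P`
  have huP : u ∈ normalizer (P : Set G) := (zpowers_le.2 hmP) hu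
  have huQ : u ∈ normalizer (Q : Set G) := (zpowers_le.2 hmQ) hu
  have hWP : zpowers u ≤ normalizer (P : Set G) := zpowers_le.2 huP
  have hWQ : zpowers u ≤ normalizer (Q : Set G) := zpowers_le.2 huQ
  have hle : (⁅(P : Subgroup G), zpowers u⁆ : Subgroup G) ≤ P :=
    comm_le_left fun a ha y hy => norm_mem (hWP ha) hy
  have hX := h.inv hG hNA hpq hle (comm_inv hMP hab hWP) (fun z hz w hw => by
    refine dq_comm hp hq hpq hMQ le_normalizer Q.2 (fun h hh a ha => norm_mem hh ha) ?_ hw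
    exact le_qp (P.2.to_le hle) (Subgroup.commutator_mono h.1 hWQ) hz)
  have h1 := Subgroup.commutator_mem_commutator (show x ∈ (P : Subgroup G) from hx)
    (mem_zpowers u)
  rw [hX, Subgroup.mem_bot, commutatorElement_eq_one_iff_mul_comm] at h1
  have h2 := hab y hyP x hx
  rw [hyu]
  calc y * u * x = y * (u * x) := by group
    _ = (y * x) * u := by rw [← h1]; group
    _ = x * (y * u) := by rw [h2]; group

end

end Pool.Agent.H91.FT
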