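import Pool.Agent.H91.FT.Base

/-!
Coprime action (of a `p` group on a `q` group), one step of the transitivity theorem.
-/

namespace Pool.Agent.H91.FT

open Subgroup

variable {G : Type*} [Group G]

/-- a `p` group acting on a coset of a subgroup of order prime to `p` has a fixed point -/
theorem coset_fixed [Finite G] {p : ℕ} (hp : p.Prime) {A N : Subgroup G} (hA : IsPGroup p A)
    (hAN : ∀ a ∈ A, ∀ n ∈ N, a * n * a⁻¹ ∈ N) (hN : ¬ p ∣ Nat.card N) {r : G}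
    (hr : ∀ a ∈ A, r⁻¹ * (a * r * a⁻¹) ∈ N) : ∃ n ∈ N, ∀ a ∈ A, a * (r * n) = (r * n) * a := by
  have : Fact p.Prime := ⟨hp⟩
  let _ : MulAction A N :=
    { smul := fun a n => ⟨r⁻¹ * (a * r * (a : G)⁻¹) * (a * n * (a : G)⁻¹),
        N.mul_mem (hr _ a.2) (hAN _ a.2 _ n.2)⟩
      one_smul := fun n => Subtype.ext (by
        show r⁻¹ * (((1 : A) : G) * r * ((1 : A) : G)⁻¹) * (((1 : A) : G) * n * ((1 : A) : G)⁻¹) = n
        simp)
      mul_smul := fun a b n => Subtype.ext (by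
        show r⁻¹ * (((a * b : A) : G) * r * ((a * b : A) : G)⁻¹) *
            (((a * b : A) : G) * n * ((a * b : A) : G)⁻¹) =
          r⁻¹ * (a * r * (a : G)⁻¹) * (a * (r⁻¹ * (b * r * (b : G)⁻¹) * (b * n * (b : G)⁻¹)) *
            (a : G)⁻¹)
        rw [Subgroup.coe_mul]
        group) }
  obtain ⟨n, hn⟩ := hA.nonempty_fixed_point_of_prime_not_dvd_card N hN
  refine ⟨n, n.2, fun a ha => ?_⟩
  have h1 : r⁻¹ * (a * r * a⁻¹) * (a * n * a⁻¹) = n := congrArg Subtype.val (hn ⟨a, ha⟩)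
  have h2 : a * (r * n) = r * (r⁻¹ * (a * r * a⁻¹) * (a * n * a⁻¹)) * a := by group
  rw [h2, h1]

theorem not_dvd_card [Finite G] {p q : ℕ} (hp : p.Prime) (hq : q.Prime) (hpq : p ≠ q)
    {N : Subgroup G} (hN : IsPGroup q N) : ¬ p ∣ Nat.card N := by
  have : Fact q.Prime := ⟨hq⟩
  obtain ⟨n, hn⟩ := (IsPGroup.iff_card).1 hN
  rw [hn]
  intro h
  exact hpq ((Nat.prime_dvd_prime_iff_eq hp hq).1 (hp.dvd_of_dvd_pow h))

theorem comm_conj {K L : Subgroup G} {g : G} (hK : ∀ x ∈ K, g * x * g⁻¹ ∈ K)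
    (hL : ∀ x ∈ L, g * x * g⁻¹ ∈ L) {x : G} (hx : x ∈ ⁅K, L⁆) : g * x * g⁻¹ ∈ ⁅K, L⁆ := by
  have h1 : cj g ⁅K, L⁆ ≤ ⁅K, L⁆ := by
    unfold cj
    rw [Subgroup.map_commutator]
    refine Subgroup.commutator_mono ?_ ?_
    · rintro _ ⟨y, hy, rfl⟩; exact hK y hy
    · rintro _ ⟨y, hy, rfl⟩; exact hL y hy
  exact h1 (cj_mem_cj hx)

theorem comm_le_left {K L : Subgroup G} (h : ∀ a ∈ L, ∀ x ∈ K, a * x * a⁻¹ ∈ K) :
    ⁅K, L⁆ ≤ K := by
  rw [Subgroup.commutator_le]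
  intro x hx a ha
  rw [commutatorElement_def]
  have : x * a * x⁻¹ * a⁻¹ = x * (a * x⁻¹ * a⁻¹) := by group
  rw [this]
  exact K.mul_mem hx (h a ha _ (K.inv_mem hx))

/-- coprime action: `R = C_R(A) [R, A]` -/
theorem coprime_split [Finite G] {p : ℕ} (hp : p.Prime) {A R : Subgroup G}
    (hA : IsPGroup p A) (hR : ¬ p ∣ Nat.card R) (hAR : ∀ a ∈ A, ∀ x ∈ R, a * x * a⁻¹ ∈ R)
    {r : G} (hr : r ∈ R) :
    ∃ c ∈ R, (∀ a ∈ A, a * c = c * a) ∧ ∃ d ∈ ⁅R, A⁆, r = c * d := by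
  have h0 : ⁅R, A⁆ ≤ R := comm_le_left hAR
  have h1 : ¬ p ∣ Nat.card (⁅R, A⁆ : Subgroup G) := fun h =>
    hR (h.trans (Subgroup.card_dvd_of_le h0))
  obtain ⟨n, hn, h⟩ := coset_fixed hp hA (N := ⁅R, A⁆) (r := r)
    (fun a ha n hn => comm_conj (fun x hx => hAR a ha x hx)
      (fun x hx => A.mul_mem (A.mul_mem ha hx) (A.inv_mem ha)) hn) h1
    (fun a ha => by
      have := Subgroup.commutator_mem_commutator (R.inv_mem hr) ha
      rw [commutatorElement_def] at this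
      simpa [mul_assoc] using this)
  exact ⟨r * n, R.mul_mem hr (h0 hn), h, n⁻¹, inv_mem hn, by group⟩

theorem norm_sup_mem {D Q : Subgroup G} {a : G} (hD : ∀ x ∈ D, a * x * a⁻¹ ∈ D)
    (hQ : ∀ x ∈ Q, a * x * a⁻¹ ∈ Q) {x : G} (hx : x ∈ D ⊔ Q) : a * x * a⁻¹ ∈ D ⊔ Q := by
  have h1 : cj a (D ⊔ Q) ≤ D ⊔ Q := by
    unfold cj
    rw [Subgroup.map_sup]
    refine sup_le_sup ?_ ?_
    · rintro _ ⟨y, hy, rfl⟩; exact hD y hy
    · rintro _ ⟨y, hy, rfl⟩; exact hQ y hy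
  exact h1 (cj_mem_cj hx)

/-- two `q` subgroups of a subgroup `C`: a conjugate of the first one lies in a `q` subgroup
which contains the second one -/
theorem sylow_two [Finite G] {q : ℕ} (hq : q.Prime) {C R1 R2 : Subgroup G}
    (h1 : IsPGroup q R1) (h1C : R1 ≤ C) (h2 : IsPGroup q R2) (h2C : R2 ≤ C) :
    ∃ c ∈ C, ∃ Q : Subgroup G, IsPGroup q Q ∧ Q ≤ C ∧ cj c R1 ≤ Q ∧ R2 ≤ Q := by
  have : Fact q.Prime := ⟨hq⟩
  have e1 : IsPGroup q (R1.subgroupOf C) := h1.comap_subtype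
  have e2 : IsPGroup q (R2.subgroupOf C) := h2.comap_subtype
  obtain ⟨Q1, hQ1⟩ := e1.exists_le_sylow
  obtain ⟨Q2, hQ2⟩ := e2.exists_le_sylow
  obtain ⟨c, hc⟩ := MulAction.exists_smul_eq C Q1 Q2
  refine ⟨c, c.2, (Q2 : Subgroup C).map C.subtype, Q2.isPGroup'.map _, ?_, ?_, ?_⟩
  · rintro _ ⟨y, _, rfl⟩; exact y.2
  · intro x hx
    rw [mem_cj] at hx
    have h3 : (⟨(c : G)⁻¹ * x * c, h1C hx⟩ : C) ∈ (Q1 : Subgroup C) := hQ1 hx
    have h4 : (c : C) * (⟨(c : G)⁻¹ * x * c, h1C hx⟩ : C) * (c : C)⁻¹ ∈ (Q2 : Subgroup C) := by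
      rw [← hc]
      exact Subgroup.smul_mem_pointwise_smul _ (MulAut.conj c) _ h3
    refine ⟨_, h4, ?_⟩
    simp [mul_assoc]
  · intro x hx
    exact ⟨⟨x, h2C hx⟩, hQ2 hx, rfl⟩

/-- 2.0: inside a subgroup `H` with nilpotent commutator subgroup, `q` subgroups invariant under
the `p` subgroup `A` can be moved together by elements centralising `A` -/
theorem two_zero [Finite G] {p q : ℕ} (hp : p.Prime) (hq : q.Prime) (hpq : p ≠ q)
    {H A R1 R2 : Subgroup G} (hN : Group.IsNilpotent (commutator H)) (hA : IsPGroup p A)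
    (hAH : A ≤ H) (h1 : IsPGroup q R1) (h1H : R1 ≤ H) (hn1 : ∀ a ∈ A, ∀ x ∈ R1, a * x * a⁻¹ ∈ R1)
    (h2 : IsPGroup q R2) (h2H : R2 ≤ H) (hn2 : ∀ a ∈ A, ∀ x ∈ R2, a * x * a⁻¹ ∈ R2) :
    ∃ c ∈ H, (∀ a ∈ A, a * c = c * a) ∧ ∃ S : Subgroup G, IsPGroup q S ∧ S ≤ H ∧
      (∀ a ∈ A, ∀ x ∈ S, a * x * a⁻¹ ∈ S) ∧ cj c R1 ≤ S ∧ R2 ≤ S := by
  set D : Subgroup G := qp q ⁅H, H⁆ with hD
  have hDp : IsPGroup q D := isPGroup_qp hq (nilp_comm hN)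
  have hHH : (⁅H, H⁆ : Subgroup G) ≤ H := comm_le_left fun a ha x hx =>
    H.mul_mem (H.mul_mem ha hx) (H.inv_mem ha)
  have hDH : D ≤ H := (qp_le _ _).trans hHH
  have hDn : ∀ h ∈ H, ∀ x ∈ D, h * x * h⁻¹ ∈ D := fun h hh x hx =>
    qp_conj (fun y hy => comm_conj (fun z hz => H.mul_mem (H.mul_mem hh hz) (H.inv_mem hh))
      (fun z hz => H.mul_mem (H.mul_mem hh hz) (H.inv_mem hh)) hy) hx
  -- the centralizer of `A` in `H`
  set C : Subgroup G := H ⊓ Subgroup.centralizer (A : Set G) with hC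
  have hcen : ∀ x : G, (∀ a ∈ A, a * x = x * a) ↔ x ∈ Subgroup.centralizer (A : Set G) := by
    intro x
    rw [Subgroup.mem_centralizer_iff]
    exact Iff.rfl
  obtain ⟨c, hcC, Q, hQ, hQC, hQ1, hQ2⟩ := sylow_two hq (C := C)
    (R1 := R1 ⊓ Subgroup.centralizer (A : Set G)) (R2 := R2 ⊓ Subgroup.centralizer (A : Set G))
    (h1.to_le inf_le_left) (inf_le_inf_right _ h1H) (h2.to_le inf_le_left) (inf_le_inf_right _ h2H)
  have hQH : Q ≤ H := hQC.trans inf_le_left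
  have hS : IsPGroup q (D ⊔ Q : Subgroup G) :=
    IsPGroup.to_sup_of_normal_left' hDp hQ (fun x hx => mem_norm (hDn x (hQH hx)))
  refine ⟨c, hcC.1, (hcen c).2 hcC.2, D ⊔ Q, hS, sup_le hDH hQH, ?_, ?_, ?_⟩
  · intro a ha x hx
    refine norm_sup_mem (hDn a (hAH ha)) ?_ hx
    intro y hy
    have : a * y = y * a := (hcen y).2 (hQC hy).2 a ha
    rw [this]; simpa using hy
  · intro x hx
    rw [mem_cj] at hx
    obtain ⟨y, hy, hya, d, hd, he⟩ := coprime_split hp hA (not_dvd_card hp hq hpq h1) hn1 hx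
    have hd1 : d ∈ D := by
      have h3 : ⁅R1, A⁆ ≤ R1 := comm_le_left hn1
      exact le_qp (h1.to_le h3) (Subgroup.commutator_mono h1H hAH) hd
    have hx2 : x = (c * y * c⁻¹) * (c * d * c⁻¹) := by
      have : x = c * (c⁻¹ * x * c) * c⁻¹ := by group
      rw [this, he]; group
    rw [hx2]
    exact mul_mem ((le_sup_right : Q ≤ D ⊔ Q) (hQ1 (cj_mem_cj ⟨hy, (hcen y).1 hya⟩)))
      ((le_sup_left : D ≤ D ⊔ Q) (hDn c hcC.1 d hd1))
  · intro x hx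
    obtain ⟨y, hy, hya, d, hd, he⟩ := coprime_split hp hA (not_dvd_card hp hq hpq h2) hn2 hx
    have hd1 : d ∈ D := by
      have h3 : ⁅R2, A⁆ ≤ R2 := comm_le_left hn2
      exact le_qp (h2.to_le h3) (Subgroup.commutator_mono h2H hAH) hd
    rw [he]
    exact mul_mem ((le_sup_right : Q ≤ D ⊔ Q) (hQ2 ⟨hy, (hcen y).1 hya⟩))
      ((le_sup_left : D ≤ D ⊔ Q) hd1)

end Pool.Agent.H91.FT
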