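import Pool.Agent.H91.FT.Tr
import Pool.Agent.H3.FT.Cop3

/-!
Elementary abelian `p` groups of order `p ^ 3` acting on `q` groups, and the transitivity theorem
for abelian `A`.
-/

namespace Pool.Agent.H91.FT

open Subgroup
open scoped Pointwise

variable {G : Type*} [Group G]

/-- an elementary abelian `p` group of order at least `p ^ 2` acting on a nontrivial `q` group
has an element `a ≠ 1` fixing some `v ≠ 1` -/
theorem fix_weak [Finite G] {p q : ℕ} (hp : p.Prime) (hq : q.Prime) (hpq : p ≠ q)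
    {E K : Subgroup G} (hE : ∀ x ∈ E, x ^ p = 1) (hEc : ∀ x ∈ E, ∀ y ∈ E, x * y = y * x)
    (hcard : p ^ 2 ≤ Nat.card E) (hK : Inv E q K) (hK0 : K ≠ ⊥) :
    ∃ a ∈ E, a ≠ 1 ∧ ∃ v ∈ K, v ≠ 1 ∧ a * v = v * a := by
  have : Fact p.Prime := ⟨hp⟩
  have : Fact q.Prime := ⟨hq⟩
  have hp1 : 1 < p ^ 2 := Nat.one_lt_pow (by norm_num) hp.one_lt
  obtain ⟨x, hx, hx1⟩ : ∃ x ∈ E, x ≠ 1 := by
    by_contra h
    push Not at h
    have h1 : E = ⊥ := (Subgroup.eq_bot_iff_forall E).2 h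
    rw [h1, Subgroup.card_bot] at hcard
    omega
  have hxo : orderOf x = p := orderOf_eq_prime (hE x hx) hx1
  obtain ⟨y, hy, hy1⟩ : ∃ y ∈ E, y ∉ zpowers x := by
    by_contra h
    push Not at h
    have h1 : Nat.card E ≤ Nat.card (zpowers x) := Subgroup.card_le_of_le h
    rw [Nat.card_zpowers, hxo] at h1
    have h2 : p < p ^ 2 := by
      have := hp.one_lt
      nlinarith
    omega
  by_contra hcon
  push Not at hcon
  apply hK0
  rw [eq_bot_iff]
  have hpK : ¬ p ∣ Nat.card K := not_dvd_card hp hq hpq hK.1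
  have key : ∀ a ∈ E, a ≠ 1 → ∀ c ∈ K, c * a = a * c → c ∈ (⊥ : Subgroup G) := by
    intro a ha ha1 c hc h
    rw [Subgroup.mem_bot]
    by_contra hc1
    exact hcon a ha ha1 c hc hc1 h.symm
  refine Pool.Agent.H3.FT.gen_cent hp (hE x hx) (hE y hy) (hEc x hx y hy) hK.1.isNilpotent hpK
    (mem_norm (hK.2 x hx)) (mem_norm (hK.2 y hy)) (S := ⊥) (key x hx hx1) ?_
  intro i
  refine key _ (E.mul_mem (E.pow_mem hx i) hy) ?_
  intro h
  apply hy1
  have h1 : y = (x ^ i)⁻¹ := eq_inv_of_mul_eq_one_right h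
  rw [h1]
  exact inv_mem (pow_mem (mem_zpowers x) i)

theorem isPGroup_of_exp {p : ℕ} {E : Subgroup G} (hE : ∀ x ∈ E, x ^ p = 1) : IsPGroup p E :=
  fun x => ⟨1, Subtype.ext (by simpa using hE x x.2)⟩

theorem card_ge_sq [Finite G] {p : ℕ} (hp : p.Prime) {B F : Subgroup G} (hB : IsPGroup p B)
    {a b : G} (ha : a ∈ B) (hb : b ∈ B) (hb1 : b ≠ 1) (hbF : b ∈ F) (haF : a ∉ F) :
    p ^ 2 ≤ Nat.card B := by
  have : Fact p.Prime := ⟨hp⟩
  obtain ⟨k, hk⟩ := (IsPGroup.iff_card).1 hB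
  rw [hk]
  refine Nat.pow_le_pow_right hp.pos ?_
  by_contra h
  have h2 : k = 0 ∨ k = 1 := by omega
  have hBt : zpowers b ≤ B := zpowers_le.2 hb
  have h1 : Nat.card (zpowers b) ∣ Nat.card B := card_dvd_of_le hBt
  have h0 : Nat.card (zpowers b) ≠ 1 := by
    rw [Nat.card_zpowers]; exact fun h => hb1 (orderOf_eq_one_iff.1 h)
  have h3 : Nat.card (zpowers b) = Nat.card B := by
    rcases h2 with rfl | rfl
    · rw [hk, pow_zero, Nat.dvd_one] at h1
      exact absurd h1 h0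
    · rw [hk, pow_one] at h1 ⊢
      exact (Nat.dvd_prime hp).1 h1 |>.resolve_left h0
  have h4 : zpowers b = B := Subgroup.eq_of_le_of_card_ge hBt h3.ge
  have h5 : a ∈ zpowers b := by rw [h4]; exact ha
  exact haF ((zpowers_le.2 hbF) h5)

/-- a subgroup of order at least `p ^ 2` centralising some `v ≠ 1` -/
theorem hyper [Finite G] {p q : ℕ} (hp : p.Prime) (hq : q.Prime) (hpq : p ≠ q)
    {E K : Subgroup G} (hE : ∀ x ∈ E, x ^ p = 1) (hEc : ∀ x ∈ E, ∀ y ∈ E, x * y = y * x)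
    (hcard : p ^ 3 ≤ Nat.card E) (hK : Inv E q K) (hK0 : K ≠ ⊥) :
    ∃ B ≤ E, p ^ 2 ≤ Nat.card B ∧ ∃ v ∈ K, v ≠ 1 ∧ ∀ b ∈ B, b * v = v * b := by
  classical
  have : Fact p.Prime := ⟨hp⟩
  obtain ⟨a, ha, ha1, v, hv, hv1, hav⟩ := fix_weak hp hq hpq hE hEc
    ((Nat.pow_le_pow_right hp.pos (by norm_num)).trans hcard) hK hK0
  have hfin : Set.Finite {F : Subgroup G | F ≤ E ∧ a ∉ F} := Set.toFinite _
  obtain ⟨F, ⟨hFE, haF⟩, hmax⟩ := hfin.exists_maximal ⟨⊥, bot_le, by simpa using ha1⟩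
  have hEle : E ≤ F ⊔ zpowers a := by
    intro x hx
    by_cases hxF : x ∈ F
    · exact (le_sup_left : F ≤ _) hxF
    have h1 : a ∈ F ⊔ zpowers x := by
      by_contra h
      exact hxF (hmax ⟨sup_le hFE (zpowers_le.2 hx), h⟩ le_sup_left
        ((le_sup_right : zpowers x ≤ _) (mem_zpowers x)))
    have hn : F ⊔ zpowers x = F ⊔ zpowers x := rfl
    have h2 : ∃ f ∈ F, ∃ k : ℤ, a = f * x ^ k := by
      have h3 : zpowers x ≤ normalizer (F : Set G) := by
        rw [zpowers_le]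
        refine mem_norm fun f hf => ?_
        rw [hEc x hx f (hFE hf)]; simpa using hf
      rw [← SetLike.mem_coe, Subgroup.coe_mul_of_right_le_normalizer_left _ _ h3] at h1
      obtain ⟨f, hf, y, ⟨k, rfl⟩, rfl⟩ := h1
      exact ⟨f, hf, k, rfl⟩
    obtain ⟨f, hf, k, hk⟩ := h2
    have hxk : x ^ k ≠ 1 := by
      intro h
      rw [h, mul_one] at hk
      exact haF (hk ▸ hf)
    -- `x` is a power of `x ^ k`
    have hxo : orderOf x = p := by
      refine orderOf_eq_prime (hE x hx) ?_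
      rintro rfl
      exact hxF F.one_mem
    have h4 : x ∈ zpowers (x ^ k) := by
      have h5 : zpowers (x ^ k) ≤ zpowers x := zpowers_le.2 ⟨k, rfl⟩
      have h6 : Nat.card (zpowers (x ^ k)) = Nat.card (zpowers x) := by
        have h7 := card_dvd_of_le h5
        rw [Nat.card_zpowers x, hxo] at h7 ⊢
        refine ((Nat.dvd_prime hp).1 h7).resolve_left ?_
        rw [Nat.card_zpowers]; exact fun h => hxk (orderOf_eq_one_iff.1 h)
      have h8 : zpowers (x ^ k) = zpowers x := Subgroup.eq_of_le_of_card_ge h5 h6.ge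
      rw [h8]; exact mem_zpowers x
    obtain ⟨j, hj⟩ := h4
    have h9 : x ^ k = f⁻¹ * a := by rw [hk]; group
    have h10 : x = (f⁻¹ * a) ^ j := by rw [← h9]; exact hj.symm
    rw [h10]
    exact zpow_mem (mul_mem ((le_sup_left : F ≤ _) (inv_mem hf))
      ((le_sup_right : zpowers a ≤ F ⊔ zpowers a) (mem_zpowers a))) j
  have hao : orderOf a = p := orderOf_eq_prime (hE a ha) ha1
  have hFc : p ^ 2 ≤ Nat.card F := by
    have h1 : Nat.card E ≤ Nat.card (F ⊔ zpowers a : Subgroup G) := by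
      exact Subgroup.card_le_of_le hEle
    have h2 : Nat.card (F ⊔ zpowers a : Subgroup G) ≤ Nat.card F * Nat.card (zpowers a) := by
      have h3 : zpowers a ≤ normalizer (F : Set G) := by
        rw [zpowers_le]
        refine mem_norm fun f hf => ?_
        rw [hEc a ha f (hFE hf)]; simpa using hf
      have h4 := Subgroup.coe_mul_of_right_le_normalizer_left F (zpowers a) h3
      have h5 : Nat.card (F ⊔ zpowers a : Subgroup G) = Nat.card ((F : Set G) * (zpowers a : Set G) : Set G) := by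
        rw [← h4]; rfl
      rw [h5]
      exact Set.natCard_mul_le
    rw [Nat.card_zpowers, hao] at h2
    have h6 : p ^ 2 * p ≤ Nat.card F * p := by
      calc p ^ 2 * p = p ^ 3 := by ring
        _ ≤ _ := hcard.trans (h1.trans h2)
    exact Nat.le_of_mul_le_mul_right h6 hp.pos
  -- second step
  set K' : Subgroup G := K ⊓ centralizer {a} with hK'
  have hvK' : v ∈ K' := by
    refine Subgroup.mem_inf.2 ⟨hv, ?_⟩
    rw [mem_centralizer_iff]
    rintro y rfl
    exact hav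
  have hInv : Inv F q K' := by
    refine ⟨hK.1.to_le inf_le_left, ?_⟩
    intro f hf x hx'
    obtain ⟨hx, hxa⟩ := Subgroup.mem_inf.1 hx'
    refine Subgroup.mem_inf.2 ⟨hK.2 f (hFE hf) x hx, ?_⟩
    rw [mem_centralizer_iff] at hxa ⊢
    rintro y rfl
    have h1 := hxa y rfl
    have h2 : y * f = f * y := hEc y ha f (hFE hf)
    calc y * (f * x * f⁻¹) = (y * f) * x * f⁻¹ := by group
      _ = f * (y * x) * f⁻¹ := by rw [h2]; group
      _ = f * x * (y * f⁻¹) := by rw [h1]; group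
      _ = f * x * f⁻¹ * y := by
        have h3 : y * f⁻¹ = f⁻¹ * y := hEc y ha f⁻¹ (inv_mem (hFE hf))
        rw [h3]; group
  obtain ⟨b, hb, hb1, w, hw, hw1, hbw⟩ := fix_weak hp hq hpq (fun x hx => hE x (hFE hx))
    (fun x hx y hy => hEc x (hFE hx) y (hFE hy)) hFc hInv
    (fun h => hv1 (by rw [h, Subgroup.mem_bot] at hvK'; exact hvK'))
  have hBE : zpowers a ⊔ zpowers b ≤ E := sup_le (zpowers_le.2 ha) (zpowers_le.2 (hFE hb))
  refine ⟨zpowers a ⊔ zpowers b, hBE, ?_, w, (Subgroup.mem_inf.1 hw).1, hw1, ?_⟩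
  · exact card_ge_sq hp ((isPGroup_of_exp hE).to_le hBE)
      ((le_sup_left : zpowers a ≤ _) (mem_zpowers a))
      ((le_sup_right : zpowers b ≤ zpowers a ⊔ zpowers b) (mem_zpowers b)) hb1 hb haF
  · have h1 : zpowers a ⊔ zpowers b ≤ centralizer {w} := by
      refine sup_le ?_ ?_
      · rw [zpowers_le, mem_centralizer_iff]
        rintro y rfl
        exact (mem_centralizer_iff.1 (Subgroup.mem_inf.1 hw).2 a rfl).symm
      · rw [zpowers_le, mem_centralizer_iff]
        rintro y rfl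
        exact hbw.symm
    intro c hc
    exact (mem_centralizer_iff.1 (h1 hc) w rfl).symm

theorem inf_ne_bot [Finite G] {p : ℕ} {E B1 B2 : Subgroup G}
    (hE : Nat.card E < p ^ 4) (h1 : B1 ≤ E) (h2 : B2 ≤ E) (c1 : p ^ 2 ≤ Nat.card B1)
    (c2 : p ^ 2 ≤ Nat.card B2) : ∃ a ∈ B1 ⊓ B2, a ≠ 1 := by
  by_contra h
  push Not at h
  have hd : Disjoint B1 B2 := by
    rw [disjoint_iff, Subgroup.eq_bot_iff_forall]
    exact h
  have hinj := Subgroup.mul_injective_of_disjoint hd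
  have h3 : Nat.card (B1 × B2) ≤ Nat.card E := by
    refine Nat.card_le_card_of_injective
      (fun x : B1 × B2 => (⟨(x.1 : G) * x.2, E.mul_mem (h1 x.1.2) (h2 x.2.2)⟩ : E)) ?_
    intro x y hxy
    exact hinj (congrArg Subtype.val hxy)
  rw [Nat.card_prod] at h3
  have h4 : p ^ 2 * p ^ 2 ≤ Nat.card B1 * Nat.card B2 := Nat.mul_le_mul c1 c2
  have h5 : p ^ 2 * p ^ 2 = p ^ 4 := by ring
  omega

end Pool.Agent.H91.FT
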