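import Pool.Agent.H91.FT.Ar
import Pool.Agent.H23.FT.Ptwo
import Pool.Agent.H3.FT.Cop1
import Pool.Agent.H3.FT.Cop3

/-!
Sylow subgroups with an elementary abelian subgroup of order `p ^ 3` (2.6, 2.7).
-/

namespace Pool.Agent.H91.FT

open Subgroup
open scoped commutatorElement Pointwise

variable {G : Type*} [Group G]

theorem cyc_el [Finite G] {p : ℕ} (hp : p.Prime) {P B : Subgroup G} (hP : IsCyclic P)
    (hB : B ≤ P) (hel : El p B) : Nat.card B ≤ p := by
  have h1 : IsCyclic B := by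
    have : IsCyclic (B.subgroupOf P) := Subgroup.isCyclic _
    exact isCyclic_of_surjective (Subgroup.subgroupOfEquivOfLe hB)
      (Subgroup.subgroupOfEquivOfLe hB).surjective
  have h2 : Monoid.exponent B ∣ p := by
    rw [Monoid.exponent_dvd_iff_forall_pow_eq_one]
    intro g
    exact Subtype.ext (by simpa using hel.1 g g.2)
  rw [IsCyclic.exponent_eq_card] at h2
  exact Nat.le_of_dvd hp.pos h2

/-- the elements of `B` centralising a normal elementary subgroup `A` of order `p ^ 2` of the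
`p` group `P` -/
theorem card_inf_cent [Finite G] {p : ℕ} [Fact p.Prime] {P A B : Subgroup G} (hP : IsPGroup p P)
    (hA : A ≤ P) (hPA : P ≤ normalizer (A : Set G)) (hAc : Nat.card A = p ^ 2)
    (hB : B ≤ P) :
    Nat.card B ≤ p * Nat.card (B ⊓ (P ⊓ centralizer (A : Set G)) : Subgroup G) := by
  have hp : p.Prime := Fact.out
  have hA0 : A ≠ ⊥ := by
    rintro rfl
    rw [Subgroup.card_bot] at hAc
    have := Nat.one_lt_pow (n := 2) (by norm_num) hp.one_lt
    omega
  have hAp : IsPGroup p A := hP.to_le hA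
  set Z : Subgroup G := ⁅A, P⁆ with hZ
  have hZA : Z < A := Pool.Agent.H3.FT.comm_lt_of_pgroup hp hAp hP hPA hA0
  have hZn : P ≤ normalizer (Z : Set G) := by
    intro x hx
    refine mem_norm fun z hz => comm_conj (fun y hy => norm_mem (hPA hx) hy)
      (fun y hy => P.mul_mem (P.mul_mem hx hy) (P.inv_mem hx)) hz
  have hcl : ∀ {A B : Subgroup G}, A < B → Nat.card A < Nat.card B := by
    intro A B hAB
    exact Set.ncard_lt_ncard (SetLike.coe_ssubset_coe.mpr hAB) (Set.toFinite _)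
  have hZc : Nat.card Z ≤ p := by
    have h1 : Nat.card Z ∣ p ^ 2 := by rw [← hAc]; exact Subgroup.card_dvd_of_le hZA.le
    have h2 := hcl hZA
    obtain ⟨j, hj, hj2⟩ := (Nat.dvd_prime_pow hp).1 h1
    rw [hj2, hAc] at h2
    have : j < 2 := (Nat.pow_lt_pow_iff_right hp.one_lt).1 h2
    rw [hj2]
    calc p ^ j ≤ p ^ 1 := Nat.pow_le_pow_right hp.pos (by omega)
      _ = p := pow_one p
  -- `Z` is central in `P`
  have hZcen : ∀ z ∈ Z, ∀ x ∈ P, z * x = x * z := by
    by_cases hZ0 : Z = ⊥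
    · intro z hz x _
      rw [hZ0, Subgroup.mem_bot] at hz
      rw [hz]; simp
    · have h1 : ⁅Z, P⁆ < Z := Pool.Agent.H3.FT.comm_lt_of_pgroup hp (hAp.to_le hZA.le) hP hZn hZ0
      have h2 := hcl h1
      have h3 : Nat.card (⁅Z, P⁆ : Subgroup G) = 1 := by
        have h4 : IsPGroup p (⁅Z, P⁆ : Subgroup G) := hAp.to_le (h1.le.trans hZA.le)
        rcases h4.card_eq_or_dvd with h | h
        · exact h
        · have := Nat.le_of_dvd Nat.card_pos h
          omega
      have h4 : (⁅Z, P⁆ : Subgroup G) = ⊥ := Subgroup.card_eq_one.1 h3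
      intro z hz x hx
      have h5 := Subgroup.commutator_mem_commutator hz hx
      rw [h4, Subgroup.mem_bot, commutatorElement_eq_one_iff_mul_comm] at h5
      exact h5
  by_cases hZ0 : Z = ⊥
  · -- `A` is central
    have h1 : B ⊓ (P ⊓ centralizer (A : Set G)) = B := by
      refine inf_eq_left.2 fun b hb => Subgroup.mem_inf.2 ⟨hB hb, ?_⟩
      rw [mem_centralizer_iff]
      intro y hy
      have h5 := Subgroup.commutator_mem_commutator (show y ∈ A from hy) (hB hb)
      rw [← hZ, hZ0, Subgroup.mem_bot, commutatorElement_eq_one_iff_mul_comm] at h5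
      exact h5
    rw [h1]
    exact Nat.le_mul_of_pos_left _ hp.pos
  -- an element `a` of `A` outside `Z`
  obtain ⟨a, haA, haZ⟩ := SetLike.exists_of_lt hZA
  have hgen : A ≤ Z ⊔ zpowers a := by
    have h1 : Z < Z ⊔ zpowers a := by
      refine lt_of_le_of_ne le_sup_left fun h => haZ ?_
      rw [h]; exact (le_sup_right : zpowers a ≤ _) (mem_zpowers a)
    have h2 : Z ⊔ zpowers a ≤ A := sup_le hZA.le (zpowers_le.2 haA)
    have h3 : Nat.card (Z ⊔ zpowers a : Subgroup G) ∣ p ^ 2 := by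
      rw [← hAc]; exact Subgroup.card_dvd_of_le h2
    obtain ⟨j, hj, hj2⟩ := (Nat.dvd_prime_pow hp).1 h3
    have h4 : p ∣ Nat.card Z := by
      rcases (hAp.to_le hZA.le).card_eq_or_dvd with h | h
      · exact absurd (Subgroup.card_eq_one.1 h) hZ0
      · exact h
    have h5 : p ≤ Nat.card Z := Nat.le_of_dvd Nat.card_pos h4
    have h6 := hcl h1
    have h7 : 1 < j := by
      by_contra hj1
      have : p ^ j ≤ p ^ 1 := Nat.pow_le_pow_right hp.pos (by omega)
      rw [pow_one] at this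
      omega
    have h8 : j = 2 := by omega
    have h9 : Z ⊔ zpowers a = A := Subgroup.eq_of_le_of_card_ge h2 (by rw [hj2, hAc, h8])
    exact h9.ge
  -- the homomorphism
  let f : B →* Z :=
    { toFun := fun b => ⟨(b : G) * a * (b : G)⁻¹ * a⁻¹, by
        have h1 := Subgroup.commutator_mem_commutator (A.inv_mem haA)
          (hB b.2)
        have h2 := Subgroup.commutator_mem_commutator haA (hB b.2)
        rw [← hZ] at h2
        have h3 := Z.inv_mem h2
        rw [commutatorElement_inv, commutatorElement_def] at h3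
        exact h3⟩
      map_one' := Subtype.ext (by simp)
      map_mul' := fun b c => Subtype.ext (by
        have h2 : (c : G) * a * (c : G)⁻¹ * a⁻¹ ∈ Z := by
          have h2 := Subgroup.commutator_mem_commutator haA (hB c.2)
          rw [← hZ] at h2
          have h3 := Z.inv_mem h2
          rw [commutatorElement_inv, commutatorElement_def] at h3
          exact h3
        have h3 := hZcen _ h2 _ (hB b.2)
        have h4 : (b : G) * a * (b : G)⁻¹ * a⁻¹ ∈ P :=
          P.mul_mem (P.mul_mem (P.mul_mem (hB b.2) (hA haA)) (P.inv_mem (hB b.2)))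
            (P.inv_mem (hA haA))
        have h5 := hZcen _ h2 _ h4
        show ((b * c : B) : G) * a * ((b * c : B) : G)⁻¹ * a⁻¹ =
          ((b : G) * a * (b : G)⁻¹ * a⁻¹) * ((c : G) * a * (c : G)⁻¹ * a⁻¹)
        rw [← h5, Subgroup.coe_mul]
        calc (b : G) * c * a * ((b : G) * c)⁻¹ * a⁻¹
            = ((b : G) * ((c : G) * a * (c : G)⁻¹ * a⁻¹)) * (a * (b : G)⁻¹ * a⁻¹) := by group
          _ = (((c : G) * a * (c : G)⁻¹ * a⁻¹) * b) * (a * (b : G)⁻¹ * a⁻¹) := by rw [h3]
          _ = _ := by group) }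
  have h1 : Nat.card f.ker * f.ker.index = Nat.card B := f.ker.card_mul_index
  have h2 : f.ker.index ≤ p := by
    rw [Subgroup.index_ker]
    exact (Subgroup.card_le_card_group _).trans hZc
  have h3 : Nat.card f.ker ≤ Nat.card (B ⊓ (P ⊓ centralizer (A : Set G)) : Subgroup G) := by
    refine Nat.card_le_card_of_injective (fun x : f.ker => (⟨((x : B) : G), ?_⟩ :
      (B ⊓ (P ⊓ centralizer (A : Set G)) : Subgroup G))) ?_
    · refine Subgroup.mem_inf.2 ⟨(x : B).2, Subgroup.mem_inf.2 ⟨hB (x : B).2, ?_⟩⟩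
      have h4 : (((x : B) : G)) * a * (((x : B) : G))⁻¹ * a⁻¹ = 1 :=
        congrArg Subtype.val (MonoidHom.mem_ker.1 x.2)
      have h5 : a * ((x : B) : G) = ((x : B) : G) * a := by
        have h6 : ((x : B) : G) * a * (a * ((x : B) : G))⁻¹ = 1 := by
          rw [mul_inv_rev]; simpa [mul_assoc] using h4
        exact (mul_inv_eq_one.1 h6).symm
      have h6 : A ≤ centralizer {((x : B) : G)} := by
        refine hgen.trans (sup_le ?_ (zpowers_le.2 ?_))
        · intro z hz
          rw [mem_centralizer_iff]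
          rintro y rfl
          exact (hZcen z hz _ (hB (x : B).2)).symm
        · rw [mem_centralizer_iff]
          rintro y rfl
          exact h5.symm
      rw [mem_centralizer_iff]
      intro y hy
      exact (mem_centralizer_iff.1 (h6 hy) _ rfl).symm
    · intro x y hxy
      have h7 : ((x : B) : G) = ((y : B) : G) := Subtype.mk.inj hxy
      exact Subtype.ext (Subtype.ext h7)
  calc Nat.card B = Nat.card f.ker * f.ker.index := h1.symm
    _ ≤ Nat.card (B ⊓ (P ⊓ centralizer (A : Set G)) : Subgroup G) * p := Nat.mul_le_mul h3 h2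
    _ = _ := Nat.mul_comm _ _

theorem card_lt_of_lt [Finite G] {A B : Subgroup G} (hAB : A < B) : Nat.card A < Nat.card B :=
  Set.ncard_lt_ncard (SetLike.coe_ssubset_coe.mpr hAB) (Set.toFinite _)

theorem El.sup [Finite G] {p : ℕ} {A B : Subgroup G} (hA : El p A) (hB : El p B)
    (h : ∀ a ∈ A, ∀ b ∈ B, a * b = b * a) : El p (A ⊔ B) := by
  have hBA : B ≤ normalizer (A : Set G) := fun b hb => mem_norm fun a ha => by
    rw [← h a ha b hb]; simpa using ha
  have hmem : ∀ x ∈ A ⊔ B, ∃ a ∈ A, ∃ b ∈ B, x = a * b := by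
    intro x hx
    rw [← SetLike.mem_coe, Subgroup.coe_mul_of_right_le_normalizer_left _ _ hBA] at hx
    obtain ⟨a, ha, b, hb, rfl⟩ := hx
    exact ⟨a, ha, b, hb, rfl⟩
  refine ⟨fun x hx => ?_, fun x hx y hy => ?_⟩
  · obtain ⟨a, ha, b, hb, rfl⟩ := hmem x hx
    rw [(show Commute a b from h a ha b hb).mul_pow, hA.1 a ha, hB.1 b hb, one_mul]
  · obtain ⟨a, ha, b, hb, rfl⟩ := hmem x hx
    obtain ⟨c, hc, d, hd, rfl⟩ := hmem y hy
    calc a * b * (c * d) = a * (b * c) * d := by group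
      _ = (a * c) * (b * d) := by rw [← h c hc b hb]; group
      _ = (c * a) * (d * b) := by rw [hA.2 a ha c hc, hB.2 b hb d hd]
      _ = c * (a * d) * b := by group
      _ = c * d * (a * b) := by rw [h a ha d hd]; group

/-- `R = C_P(A)` is not abelian of rank at most two -/
theorem wide_cent [Finite G] {p : ℕ} [Fact p.Prime] {P A B : Subgroup G} (hP : IsPGroup p P)
    (hA : A ≤ P) (hPA : P ≤ normalizer (A : Set G)) (hAc : Nat.card A = p ^ 2) (hAel : El p A)
    (hB : B ≤ P) (hBel : El p B) (hBc : p ^ 3 ≤ Nat.card B) :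
    Wide p (P ⊓ centralizer (A : Set G)) := by
  have hp : p.Prime := Fact.out
  set R : Subgroup G := P ⊓ centralizer (A : Set G) with hR
  by_contra hw
  have hab : ∀ x ∈ R, ∀ y ∈ R, x * y = y * x := by
    intro a ha b hb
    by_contra h
    exact hw (Or.inl ⟨a, ha, b, hb, h⟩)
  have hcl : ∀ E : Subgroup G, E ≤ R → El p E → Nat.card E ≤ p ^ 2 := fun E hE hel =>
    el_card_le (fun h => hw (Or.inr h)) hE hel
  have hAR : A ≤ R := le_inf hA fun a ha => by
    rw [mem_centralizer_iff]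
    intro b hb
    exact hAel.2 b hb a ha
  have h1 : El p (A ⊔ (B ⊓ R) : Subgroup G) := El.sup hAel
    ⟨fun x hx => hBel.1 x (Subgroup.mem_inf.1 hx).1,
      fun x hx y hy => hBel.2 x (Subgroup.mem_inf.1 hx).1 y (Subgroup.mem_inf.1 hy).1⟩
    (fun a ha b hb => hab a (hAR ha) b (Subgroup.mem_inf.1 hb).2)
  have h2 := hcl _ (sup_le hAR inf_le_right) h1
  have h3 : A = A ⊔ (B ⊓ R) := Subgroup.eq_of_le_of_card_ge le_sup_left (by rw [hAc]; exact h2)
  have h4 : B ⊓ R ≤ A := by rw [h3]; exact le_sup_right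
  have h5 : p ^ 2 ≤ Nat.card (B ⊓ R : Subgroup G) := by
    have h6 := card_inf_cent hP hA hPA hAc hB
    have h7 : p * p ^ 2 ≤ p * Nat.card (B ⊓ R : Subgroup G) := by
      calc p * p ^ 2 = p ^ 3 := by ring
        _ ≤ _ := hBc.trans h6
    exact Nat.le_of_mul_le_mul_left h7 hp.pos
  have h6 : B ⊓ R = A := Subgroup.eq_of_le_of_card_ge h4 (by rw [hAc]; exact h5)
  have hAB : A ≤ B := by rw [← h6]; exact inf_le_left
  have hBR : B ≤ R := le_inf hB fun b hb => by
    rw [mem_centralizer_iff]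
    intro a ha
    exact hBel.2 a (hAB ha) b hb
  have h7 := hcl B hBR hBel
  have h8 : p ^ 2 < p ^ 3 := Nat.pow_lt_pow_right hp.one_lt (by norm_num)
  omega

theorem relIndex_mul_card' {H K : Subgroup G} (h : H ≤ K) :
    H.relIndex K * Nat.card H = Nat.card K := by
  have h1 := Subgroup.relIndex_mul_relIndex ⊥ H K bot_le h
  rw [Subgroup.relIndex_bot_left, Subgroup.relIndex_bot_left] at h1
  rw [Nat.mul_comm]; exact h1

/-- `P ∩ C` has index prime to `p` in `C`, for `P` a Sylow `p` subgroup of `G` and `C` normalised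
by `P` -/
theorem relIndex_sylow [Finite G] {p : ℕ} [Fact p.Prime] (P : Sylow p G) {C : Subgroup G}
    (hPC : (P : Subgroup G) ≤ normalizer (C : Set G)) :
    ¬ p ∣ (P : Subgroup G).relIndex C := by
  set L : Subgroup G := (P : Subgroup G) ⊔ C with hL
  have hPL : (P : Subgroup G) ≤ L := le_sup_left
  have hCL : C ≤ L := le_sup_right
  have hLC : L ≤ normalizer (C : Set G) := sup_le hPC le_normalizer
  have hn : (C.subgroupOf L).Normal := ⟨fun n hn g => by
    rw [Subgroup.mem_subgroupOf] at hn ⊢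
    exact norm_mem (hLC g.2) hn⟩
  have e1 : C.relIndex L = C.relIndex (P : Subgroup G) := by
    have h1 := Subgroup.relIndex_sup_right (H := (P : Subgroup G).subgroupOf L)
      (K := C.subgroupOf L)
    rw [← Subgroup.subgroupOf_sup hPL hCL, ← hL, Subgroup.subgroupOf_self,
      Subgroup.relIndex_top_right, Subgroup.relIndex_subgroupOf hPL] at h1
    exact h1
  have e2 : C.relIndex L * Nat.card C = Nat.card L := relIndex_mul_card' hCL
  have e3 : (P : Subgroup G).relIndex L * Nat.card (P : Subgroup G) = Nat.card L :=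
    relIndex_mul_card' hPL
  have e4 : ((P : Subgroup G) ⊓ C).relIndex C * Nat.card ((P : Subgroup G) ⊓ C : Subgroup G) =
      Nat.card C := relIndex_mul_card' inf_le_right
  have e5 : (C ⊓ (P : Subgroup G)).relIndex (P : Subgroup G) *
      Nat.card (C ⊓ (P : Subgroup G) : Subgroup G) = Nat.card (P : Subgroup G) :=
    relIndex_mul_card' inf_le_right
  rw [Subgroup.inf_relIndex_right] at e4 e5
  rw [inf_comm] at e5
  have e6 : (P : Subgroup G).relIndex L = (P : Subgroup G).relIndex C := by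
    have hc : 0 < Nat.card (P : Subgroup G) := Nat.card_pos
    apply Nat.eq_of_mul_eq_mul_right hc
    rw [e3, ← e2, e1, ← e4]
    calc C.relIndex (P : Subgroup G) * ((P : Subgroup G).relIndex C *
          Nat.card ((P : Subgroup G) ⊓ C : Subgroup G)) =
          (P : Subgroup G).relIndex C * (C.relIndex (P : Subgroup G) *
          Nat.card ((P : Subgroup G) ⊓ C : Subgroup G)) := by ring
      _ = _ := by rw [e5]
  rw [← e6]
  intro h
  have h2 : (P : Subgroup G).relIndex L ∣ (P : Subgroup G).index :=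
    ⟨_, (Subgroup.relIndex_mul_index hPL).symm⟩
  exact P.not_dvd_index (h.trans h2)

section
variable [Finite G] [IsSimpleGroup G]

/-- (2.6)(i): a subgroup `R` normal in the wide Sylow subgroup `P`, itself wide, and containing
its centraliser in `P`, centralises all `R` invariant `q` subgroups -/
theorem cent_of_wide (hG : commutator G = ⊤)
    (hNA : ∀ H : Subgroup G, H < ⊤ → Group.IsNilpotent (commutator H)) {p q : ℕ} [Fact p.Prime]
    [Fact q.Prime] (hpq : p ≠ q) (P : Sylow p G) (hw : Wide p (P : Subgroup G)) {R : Subgroup G}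
    (hRP : R ≤ P) (hPR : (P : Subgroup G) ≤ normalizer (R : Set G)) (hwR : Wide p R)
    (hcR : ∀ x ∈ P, (∀ r ∈ R, r * x = x * r) → x ∈ R) {K : Subgroup G} (hK : Inv R q K)
    {x k : G} (hx : x ∈ R) (hk : k ∈ K) : x * k = k * x := by
  have hp : p.Prime := Fact.out
  have hRp : IsPGroup p R := P.2.to_le hRP
  obtain ⟨L, hL, hKL⟩ := exists_mInv hK
  -- the centraliser of `R` acts transitively on the set `X` of maximal invariant subgroups
  let X := {K : Subgroup G // MInv R q K}
  let act : ∀ H : Subgroup G, H ≤ normalizer (R : Set G) → MulAction H X := fun H hH =>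
    { smul := fun g K => ⟨cj (g : G) K.1, K.2.cj (fun a ha => norm_mem' (hH g.2) ha)
        (fun a ha => norm_mem (hH g.2) ha)⟩
      one_smul := fun K => Subtype.ext (cj_one _)
      mul_smul := fun g h K => Subtype.ext (cj_mul _ _ _) }
  set C : Subgroup G := centralizer (R : Set G) with hC
  have hcent : ∀ c : G, (∀ a ∈ R, a * c = c * a) → c ∈ C := by
    intro c hc
    rw [hC, mem_centralizer_iff]
    exact hc
  have hcent' : ∀ c ∈ C, (∀ a ∈ R, a * c = c * a) := by
    intro c hc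
    rw [hC, mem_centralizer_iff] at hc
    exact hc
  have hCN : C ≤ normalizer (R : Set G) := fun c hc =>
    mem_norm (cent_norm (hcent' c hc)).2
  have hcard : ¬ p ∣ Nat.card X := by
    let _ : MulAction C X := act C hCN
    have htr : MulAction.IsPretransitive C X := by
      constructor
      intro K1 K2
      obtain ⟨c, hc, he⟩ := two_one hG hNA hpq hRp hwR K1.2 K2.2
      exact ⟨⟨c, hcent c hc⟩, Subtype.ext he⟩
    have h1 : (MulAction.stabilizer C (⟨L, hL⟩ : X)).index = Nat.card X :=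
      MulAction.index_stabilizer_of_transitive C _
    rw [← h1]
    intro hd
    have hPC : (P : Subgroup G) ≤ normalizer (C : Set G) := by
      intro g hg
      refine mem_norm fun c hc => hcent _ fun a ha => ?_
      have h2 := hcent' c hc _ (norm_mem' (hPR hg) ha)
      calc a * (g * c * g⁻¹) = g * ((g⁻¹ * a * g) * c) * g⁻¹ := by group
        _ = g * c * g⁻¹ * a := by rw [h2]; group
    have h2 : (P : Subgroup G).subgroupOf C ≤ MulAction.stabilizer C (⟨L, hL⟩ : X) := by
      intro c hc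
      rw [Subgroup.mem_subgroupOf] at hc
      rw [MulAction.mem_stabilizer_iff]
      have h3 : (c : G) ∈ R := hcR _ hc (hcent' _ c.2)
      exact Subtype.ext (cj_eq_self (mem_norm (hL.1.2 _ h3)))
    exact relIndex_sylow P hPC (hd.trans (Subgroup.index_dvd_of_le h2))
  -- so `P` has a fixed point
  obtain ⟨K1, hK1⟩ : ∃ K1 : X, Inv (P : Subgroup G) q K1.1 := by
    let _ : MulAction P X := act P hPR
    have : Finite X := inferInstance
    obtain ⟨K1, hK1⟩ := P.2.nonempty_fixed_point_of_prime_not_dvd_card X hcard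
    refine ⟨K1, K1.2.1.1, fun a ha y hy => ?_⟩
    have h1 : cj a K1.1 = K1.1 := congrArg Subtype.val (hK1 ⟨a, ha⟩)
    rw [← h1]
    exact cj_mem_cj hy
  obtain ⟨c, hc, he⟩ := two_one hG hNA hpq hRp hwR K1.2 hL
  have hkL : k ∈ cj c K1.1 := by rw [he]; exact hKL hk
  rw [mem_cj] at hkL
  have h1 := two_two hG hNA hpq P hw hK1 (hRP hx) hkL
  have h2 := hc x hx
  calc x * k = (x * c) * (c⁻¹ * k * c) * c⁻¹ := by group
    _ = c * (x * (c⁻¹ * k * c)) * c⁻¹ := by rw [h2]; group
    _ = k * (c * x) * c⁻¹ := by rw [h1]; group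
    _ = k * x := by rw [← h2]; group

theorem cent_lt_top (hG : commutator G = ⊤) {p : ℕ} [Fact p.Prime] {P : Subgroup G}
    (hP : IsPGroup p P) {a : G} (ha : a ∈ P) (ha1 : a ≠ 1) : centralizer {a} < (⊤ : Subgroup G) := by
  have h1 : IsPGroup p (zpowers a) := hP.to_le (zpowers_le.2 ha)
  have h2 : zpowers a ≠ ⊥ := by rw [Ne, zpowers_eq_bot]; exact ha1
  refine lt_of_le_of_lt ?_ (lt_top_iff_ne_top.2 (H51.FT.normalizer_ne_top hG h1 h2))
  intro x hx
  rw [mem_centralizer_iff] at hx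
  refine mem_norm ?_
  rintro _ ⟨k, rfl⟩
  have h3 : Commute x (a ^ k) := (show Commute x a from (hx a rfl).symm).zpow_right k
  rw [h3.eq]
  simp

/-- (2.6)(iv) -/
theorem le_of_el2 (hG : commutator G = ⊤)
    (hNA : ∀ H : Subgroup G, H < ⊤ → Group.IsNilpotent (commutator H)) {p : ℕ} [Fact p.Prime]
    (P : Sylow p G) {B : Subgroup G} (hB : B ≤ P) (hel : El p B) (hc : p ^ 2 ≤ Nat.card B)
    (hgood : ∀ b ∈ B, b ≠ 1 → centralizer {b} ≤ normalizer (P : Set G)) {H : Subgroup G}
    (hH : H < ⊤) (hBH : B ≤ H) : H ≤ normalizer (P : Set G) := by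
  have hp : p.Prime := Fact.out
  obtain ⟨x, hx, hx1⟩ : ∃ x ∈ B, x ≠ 1 := by
    by_contra h
    push Not at h
    have h1 : B = ⊥ := (Subgroup.eq_bot_iff_forall B).2 h
    rw [h1, Subgroup.card_bot] at hc
    have := Nat.one_lt_pow (n := 2) (by norm_num) hp.one_lt
    omega
  have hxo : orderOf x = p := orderOf_eq_prime (hel.1 x hx) hx1
  obtain ⟨y, hy, hy1⟩ : ∃ y ∈ B, y ∉ zpowers x := by
    by_contra h
    push Not at h
    have h1 : Nat.card B ≤ Nat.card (zpowers x) := Subgroup.card_le_of_le h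
    rw [Nat.card_zpowers, hxo] at h1
    have h2 : p < p ^ 2 := by
      have := hp.one_lt
      nlinarith
    omega
  obtain ⟨K, hK⟩ := H51.FT.exists_isKp (p := p) (hNA H hH)
  have key : ∀ b ∈ B, b ≠ 1 → ∀ c : G, c * b = b * c → c ∈ normalizer (P : Set G) := by
    intro b hb hb1 c hcb
    refine hgood b hb hb1 ?_
    rw [mem_centralizer_iff]
    rintro z rfl
    exact hcb.symm
  have hKP : K ≤ normalizer (P : Set G) := by
    have hnd : ¬ p ∣ Nat.card K := fun h => by
      have := Nat.Coprime.eq_one_of_dvd hK.cop.symm h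
      exact hp.one_lt.ne' this
    refine Pool.Agent.H3.FT.gen_cent hp (hel.1 x hx) (hel.1 y hy) (hel.2 x hx y hy) hK.nil hnd
      (hK.le_normalizer (hBH hx)) (hK.le_normalizer (hBH hy))
      (fun c _ h => key x hx hx1 c h) ?_
    intro i c _ h
    refine key _ (B.mul_mem (B.pow_mem hx i) hy) ?_ c h
    intro h1
    apply hy1
    have h2 : y = (x ^ i)⁻¹ := eq_inv_of_mul_eq_one_right h1
    rw [h2]
    exact inv_mem (pow_mem (mem_zpowers x) i)
  obtain ⟨S, hS, hxS⟩ := H51.FT.exists_isSyl (H := H) (T := zpowers x) (p := p)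
    (zpowers_le.2 (hBH hx)) (P.2.to_le (zpowers_le.2 (hB hx)))
  have hg : H51.FT.Good P x := ⟨hB hx, hx1, hgood x hx hx1⟩
  have hSP := hg.normalizer_le (H51.FT.sylC hG hNA) hS.2.1 (hxS (mem_zpowers x))
  intro g hgH
  obtain ⟨k, hk, n, hn, rfl⟩ := hK.le_sup_normalizer (hNA H hH) hS g hgH
  exact mul_mem (hKP hk) (hSP (Subgroup.mem_inf.1 hn).2)

/-- (2.6)(iii) -/
theorem le_of_R (hG : commutator G = ⊤)
    (hNA : ∀ H : Subgroup G, H < ⊤ → Group.IsNilpotent (commutator H)) {p : ℕ} [Fact p.Prime]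
    (P : Sylow p G) (hw : Wide p (P : Subgroup G)) {R : Subgroup G} (hR0 : R ≠ ⊥)
    (hRP : R ≤ P) (hPR : (P : Subgroup G) ≤ normalizer (R : Set G)) (hwR : Wide p R)
    (hcR : ∀ x ∈ P, (∀ r ∈ R, r * x = x * r) → x ∈ R) {H : Subgroup G} (hH : H < ⊤)
    (hRH : R ≤ H) : H ≤ normalizer (P : Set G) := by
  have hp : p.Prime := Fact.out
  have hRN : normalizer (R : Set G) ≤ normalizer (P : Set G) :=
    two_three hG hNA P hw (lt_top_iff_ne_top.2 (H51.FT.normalizer_ne_top hG (P.2.to_le hRP) hR0))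
      hPR
  -- `P` is the only Sylow subgroup containing `R`
  have huniq : ∀ Q : Sylow p G, R ≤ Q → Q = P := by
    intro Q hQ
    obtain ⟨c, hc, hcQ⟩ := H51.FT.sylow_conj (H51.FT.sylC hG hNA) P Q
    have h1 : c ∈ normalizer (R : Set G) := by
      refine mem_norm fun r hr => ?_
      rw [mem_centralizer_iff] at hc
      have h2 := hc r (Subgroup.mem_inf.2 ⟨hRP hr, hQ hr⟩)
      rw [← h2]; simpa using hr
    have h3 := Sylow.smul_eq_iff_mem_normalizer.2 (hRN h1)
    rw [← hcQ, h3]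
  obtain ⟨K, hK⟩ := H51.FT.exists_isKp (p := p) (hNA H hH)
  have hKP : K ≤ normalizer (P : Set G) := by
    refine kp_le hK hRH fun q hq hpq W hW k hk => hRN ?_
    have : Fact q.Prime := ⟨hq⟩
    refine mem_norm fun r hr => ?_
    have h1 := cent_of_wide hG hNA hpq P hw hRP hPR hwR hcR hW hr hk
    rw [← h1]; simpa using hr
  obtain ⟨S, hS, hRS⟩ := H51.FT.exists_isSyl (H := H) (T := R) (p := p) hRH (P.2.to_le hRP)
  obtain ⟨Q, hQ⟩ := hS.2.1.exists_le_sylow
  intro g hgH
  obtain ⟨k, hk, n, hn, rfl⟩ := hK.le_sup_normalizer (hNA H hH) hS g hgH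
  refine mul_mem (hKP hk) ?_
  have hnS := (Subgroup.mem_inf.1 hn).2
  rw [← Sylow.smul_eq_iff_mem_normalizer]
  have hQP := huniq Q (hRS.trans hQ)
  refine huniq (n • P) ?_
  intro r hr
  have h1 : n⁻¹ * r * n ∈ P := by
    rw [← hQP]
    exact hQ (norm_mem' hnS (hRS hr))
  have h2 : r = n * (n⁻¹ * r * n) * n⁻¹ := by group
  rw [h2]
  exact Subgroup.smul_mem_pointwise_smul _ (MulAut.conj n) (P : Subgroup G) h1

/-- (2.6) -/
theorem good_of_el3' (hG : commutator G = ⊤)
    (hNA : ∀ H : Subgroup G, H < ⊤ → Group.IsNilpotent (commutator H)) {p : ℕ} [Fact p.Prime]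
    (hp2 : p ≠ 2) (P : Sylow p G) {B : Subgroup G} (hB : B ≤ P) (hel : El p B)
    (hcard : p ^ 3 ≤ Nat.card B) {b : G} (hb : b ∈ B) (hb1 : b ≠ 1) :
    centralizer {b} ≤ normalizer (P : Set G) := by
  have hp : p.Prime := Fact.out
  have hnc : ¬ IsCyclic (P : Subgroup G) := by
    intro h
    have h1 := cyc_el hp h hB hel
    have h2 : p ^ 1 < p ^ 3 := Nat.pow_lt_pow_right hp.one_lt (by norm_num)
    rw [pow_one] at h2
    omega
  obtain ⟨A, hAP, hPA, hAc, hAe, hAcm⟩ :=
    H23.FT.exists_normal_el2_sub hp2 P.2 hnc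
  have hAel : El p A := ⟨hAe, hAcm⟩
  set R : Subgroup G := (P : Subgroup G) ⊓ centralizer (A : Set G) with hR
  have hwR : Wide p R := wide_cent P.2 hAP hPA hAc hAel hB hel hcard
  have hRP : R ≤ P := inf_le_left
  have hAR : A ≤ R := le_inf hAP fun a ha => by
    rw [mem_centralizer_iff]
    intro b hb
    exact hAcm b hb a ha
  have hPR : (P : Subgroup G) ≤ normalizer (R : Set G) := by
    intro g hg
    refine mem_norm fun r hr => ?_
    obtain ⟨hr1, hr2⟩ := Subgroup.mem_inf.1 hr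
    rw [mem_centralizer_iff] at hr2
    refine Subgroup.mem_inf.2 ⟨P.mul_mem (P.mul_mem hg hr1) (P.inv_mem hg), ?_⟩
    rw [mem_centralizer_iff]
    intro a ha
    have h1 := hr2 _ (norm_mem' (hPA hg) ha)
    calc a * (g * r * g⁻¹) = g * ((g⁻¹ * a * g) * r) * g⁻¹ := by group
      _ = g * r * g⁻¹ * a := by rw [h1]; group
  have hcR : ∀ x ∈ P, (∀ r ∈ R, r * x = x * r) → x ∈ R := by
    intro x hx h
    refine Subgroup.mem_inf.2 ⟨hx, ?_⟩
    rw [mem_centralizer_iff]
    intro a ha
    exact h a (hAR ha)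
  have hw : Wide p (P : Subgroup G) := by
    rcases hwR with ⟨x, hx, y, hy, hxy⟩ | ⟨E, hE, hEel, hEc⟩
    · exact Or.inl ⟨x, hRP hx, y, hRP hy, hxy⟩
    · exact Or.inr ⟨E, hE.trans hRP, hEel, hEc⟩
  have hA0 : A ≠ ⊥ := by
    rintro rfl
    rw [Subgroup.card_bot] at hAc
    have := Nat.one_lt_pow (n := 2) (by norm_num) hp.one_lt
    omega
  have hR0 : R ≠ ⊥ := by
    intro h
    rw [h, le_bot_iff] at hAR
    exact hA0 hAR
  have hmc : ∀ {x y : G}, x * y = y * x → x ∈ centralizer ({y} : Set G) := by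
    intro x y h
    rw [mem_centralizer_iff]
    rintro z rfl
    exact h.symm
  -- elements of `A` are good
  have gA : ∀ a ∈ A, a ≠ 1 → centralizer {a} ≤ normalizer (P : Set G) := by
    intro a ha ha1
    refine le_of_R hG hNA P hw hR0 hRP hPR hwR hcR (cent_lt_top hG P.2 (hAP ha) ha1) ?_
    intro r hr
    have h1 := (Subgroup.mem_inf.1 hr).2
    rw [mem_centralizer_iff] at h1
    exact hmc (h1 a ha).symm
  -- elements of `B ∩ R` are good
  have gBR : ∀ c ∈ B ⊓ R, c ≠ 1 → centralizer {c} ≤ normalizer (P : Set G) := by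
    intro c hc hc1
    obtain ⟨hcB, hcR'⟩ := Subgroup.mem_inf.1 hc
    refine le_of_el2 hG hNA P hAP hAel hAc.ge gA (cent_lt_top hG P.2 (hB hcB) hc1) ?_
    intro a ha
    have h1 := (Subgroup.mem_inf.1 hcR').2
    rw [mem_centralizer_iff] at h1
    exact hmc (h1 a ha)
  have h5 : p ^ 2 ≤ Nat.card (B ⊓ R : Subgroup G) := by
    have h6 := card_inf_cent P.2 hAP hPA hAc hB
    have h7 : p * p ^ 2 ≤ p * Nat.card (B ⊓ R : Subgroup G) := by
      calc p * p ^ 2 = p ^ 3 := by ring
        _ ≤ _ := hcard.trans h6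
    exact Nat.le_of_mul_le_mul_left h7 hp.pos
  refine le_of_el2 hG hNA P (B := B ⊓ R) (inf_le_left.trans hB)
    ⟨fun x hx => hel.1 x (Subgroup.mem_inf.1 hx).1,
      fun x hx y hy => hel.2 x (Subgroup.mem_inf.1 hx).1 y (Subgroup.mem_inf.1 hy).1⟩ h5 gBR
    (cent_lt_top hG P.2 (hB hb) hb1) ?_
  intro c hc
  exact hmc (hel.2 c (Subgroup.mem_inf.1 hc).1 b hb)

/-- (2.7) -/
theorem le_of_el3' (hG : commutator G = ⊤)
    (hNA : ∀ H : Subgroup G, H < ⊤ → Group.IsNilpotent (commutator H)) {p : ℕ} [Fact p.Prime]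
    (hp2 : p ≠ 2) (P : Sylow p G) {B : Subgroup G} (hB : B ≤ P) (hel : El p B)
    (hcard : p ^ 3 ≤ Nat.card B) {H : Subgroup G} (hH : H < ⊤) (hBH : B ≤ H) :
    H ≤ normalizer (P : Set G) := by
  have hp : p.Prime := Fact.out
  exact le_of_el2 hG hNA P hB hel
    ((Nat.pow_le_pow_right hp.pos (by norm_num)).trans hcard)
    (fun b hb hb1 => good_of_el3' hG hNA hp2 P hB hel hcard hb hb1) hH hBH

/-- (2.7) -/
theorem le_of_el3 (hG : commutator G = ⊤)
    (hNA : ∀ H : Subgroup G, H < ⊤ → Group.IsNilpotent (commutator H)) {p : ℕ} [Fact p.Prime]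
    (hp2 : p ≠ 2) (P : Sylow p G) {B : Subgroup G} (hB : B ≤ P) (hel : El p B)
    (hcard : Nat.card B = p ^ 3) {H : Subgroup G} (hH : H < ⊤) (hBH : B ≤ H) :
    H ≤ normalizer (P : Set G) :=
  le_of_el3' hG hNA hp2 P hB hel hcard.ge hH hBH

/-- (2.6) -/
theorem good_of_el3 (hG : commutator G = ⊤)
    (hNA : ∀ H : Subgroup G, H < ⊤ → Group.IsNilpotent (commutator H)) {p : ℕ} [Fact p.Prime]
    (hp2 : p ≠ 2) (P : Sylow p G) {B : Subgroup G} (hB : B ≤ P) (hel : El p B)
    (hcard : Nat.card B = p ^ 3) {b : G} (hb : b ∈ B) (hb1 : b ≠ 1) :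
    centralizer {b} ≤ normalizer (P : Set G) :=
  good_of_el3' hG hNA hp2 P hB hel hcard.ge hb hb1

/-- (2.7) the centraliser in `P` of a bad element of order `p` has rank at most two -/
theorem card_le_of_bad (hG : commutator G = ⊤)
    (hNA : ∀ H : Subgroup G, H < ⊤ → Group.IsNilpotent (commutator H)) {p : ℕ} [Fact p.Prime]
    (hp2 : p ≠ 2) (P : Sylow p G) {x : G} (hx : x ∈ P) (hxp : x ^ p = 1) (hx1 : x ≠ 1)
    (hbad : ¬ centralizer {x} ≤ normalizer (P : Set G)) {E : Subgroup G} (hE : E ≤ P)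
    (hEx : ∀ e ∈ E, e * x = x * e) (hel : El p E) : Nat.card E ≤ p ^ 2 := by
  have hp : p.Prime := Fact.out
  by_contra hlt
  push Not at hlt
  have hx' : El p (zpowers x) := by
    refine ⟨?_, ?_⟩
    · rintro _ ⟨k, rfl⟩
      show (x ^ k) ^ p = 1
      rw [← zpow_natCast, ← zpow_mul, mul_comm, zpow_mul, zpow_natCast, hxp, one_zpow]
    · rintro _ ⟨k, rfl⟩ _ ⟨l, rfl⟩
      exact ((Commute.refl x).zpow_zpow k l).eq
  have hEx' : ∀ a ∈ E, ∀ b ∈ zpowers x, a * b = b * a := by
    rintro a ha _ ⟨k, rfl⟩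
    exact ((show Commute a x from hEx a ha).zpow_right k).eq
  have h1 : El p (E ⊔ zpowers x : Subgroup G) := hel.sup hx' hEx'
  have h2 : Nat.card E ≤ Nat.card (E ⊔ zpowers x : Subgroup G) :=
    Subgroup.card_le_of_le le_sup_left
  obtain ⟨k, hk⟩ := (IsPGroup.iff_card).1 (isPGroup_of_exp h1.1)
  have hk3 : 3 ≤ k := by
    by_contra hk3
    have : p ^ k ≤ p ^ 2 := Nat.pow_le_pow_right hp.pos (by omega)
    omega
  refine hbad (good_of_el3' hG hNA hp2 P (sup_le hE (zpowers_le.2 hx)) h1 ?_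
    ((le_sup_right : zpowers x ≤ E ⊔ zpowers x) (mem_zpowers x)) hx1)
  rw [hk]
  exact Nat.pow_le_pow_right hp.pos hk3

end

end Pool.Agent.H91.FT
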