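import Pool.Agent.H91.FT.Cop
import Pool.Agent.H51.FT.Max

/-!
Invariant `q` subgroups of a `p` subgroup `A`, and the transitivity theorem: the centraliser of
`A` is transitive on the maximal ones (for `A` not abelian, or `A` abelian with an elementary
subgroup of order `p ^ 3`).
-/

namespace Pool.Agent.H91.FT

open Subgroup

variable {G : Type*} [Group G]

/-- `K` is a `q` subgroup normalised by `A` -/
def Inv (A : Subgroup G) (q : ℕ) (K : Subgroup G) : Prop :=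
  IsPGroup q K ∧ ∀ a ∈ A, ∀ x ∈ K, a * x * a⁻¹ ∈ K

/-- `K` is a maximal `q` subgroup normalised by `A` -/
def MInv (A : Subgroup G) (q : ℕ) (K : Subgroup G) : Prop :=
  Inv A q K ∧ ∀ L, Inv A q L → K ≤ L → L = K

theorem exists_mInv [Finite G] {A : Subgroup G} {q : ℕ} {K : Subgroup G} (hK : Inv A q K) :
    ∃ L, MInv A q L ∧ K ≤ L := by
  classical
  have hfin : Set.Finite {S : Subgroup G | Inv A q S ∧ K ≤ S} := Set.toFinite _
  obtain ⟨S, hS, hmax⟩ := hfin.exists_maximal ⟨K, hK, le_rfl⟩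
  refine ⟨S, ⟨hS.1, ?_⟩, hS.2⟩
  intro U hU hSU
  exact le_antisymm (hmax ⟨hU, hS.2.trans hSU⟩ hSU) hSU

theorem Inv.cj {A : Subgroup G} {q : ℕ} {K : Subgroup G} (hK : Inv A q K) {n : G}
    (hn : ∀ a ∈ A, n⁻¹ * a * n ∈ A) : Inv A q (cj n K) := by
  refine ⟨isPGroup_cj hK.1, fun a ha x hx => ?_⟩
  rw [mem_cj] at hx ⊢
  have h1 := hK.2 _ (hn a ha) _ hx
  have h2 : n⁻¹ * a * n * (n⁻¹ * x * n) * (n⁻¹ * a * n)⁻¹ = n⁻¹ * (a * x * a⁻¹) * n := by group
  rwa [h2] at h1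

theorem MInv.cj {A : Subgroup G} {q : ℕ} {K : Subgroup G} (hK : MInv A q K) {n : G}
    (hn : ∀ a ∈ A, n⁻¹ * a * n ∈ A) (hn' : ∀ a ∈ A, n * a * n⁻¹ ∈ A) : MInv A q (cj n K) := by
  refine ⟨hK.1.cj hn, fun L hL h => ?_⟩
  have h1 : Inv A q (FT.cj n⁻¹ L) := hL.cj (by simpa using hn')
  have h2 : K ≤ FT.cj n⁻¹ L := by
    rw [← cj_le_cj (g := n), ← cj_mul]
    simpa using h
  have h3 := hK.2 _ h1 h2
  rw [← h3, ← cj_mul]
  simp

theorem cent_norm {A : Subgroup G} {c : G} (hc : ∀ a ∈ A, a * c = c * a) :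
    (∀ a ∈ A, c⁻¹ * a * c ∈ A) ∧ (∀ a ∈ A, c * a * c⁻¹ ∈ A) := by
  constructor
  · intro a ha
    rw [mul_assoc, hc a ha, ← mul_assoc]; simpa using ha
  · intro a ha
    rw [← hc a ha]; simpa using ha

theorem MInv.cjc {A : Subgroup G} {q : ℕ} {K : Subgroup G} (hK : MInv A q K) {c : G}
    (hc : ∀ a ∈ A, a * c = c * a) : MInv A q (FT.cj c K) :=
  hK.cj (cent_norm hc).1 (cent_norm hc).2

section
variable [Finite G] [IsSimpleGroup G]

/-- the commutator subgroup of a `p` subgroup `A` centralises every `A` invariant `q` subgroup -/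
theorem comm_centralises (hG : commutator G = ⊤)
    (hNA : ∀ H : Subgroup G, H < ⊤ → Group.IsNilpotent (commutator H)) {p q : ℕ} (hp : p.Prime)
    (hq : q.Prime) (hpq : p ≠ q) {A K : Subgroup G} (hA : IsPGroup p A) (hK : Inv A q K) {z k : G}
    (hz : z ∈ ⁅A, A⁆) (hk : k ∈ K) : z * k = k * z := by
  have : Fact p.Prime := ⟨hp⟩
  have : Fact q.Prime := ⟨hq⟩
  by_cases hK0 : K = ⊥
  · subst hK0
    rw [Subgroup.mem_bot] at hk
    subst hk; simp
  set H : Subgroup G := K ⊔ A with hH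
  have hKH : K ≤ H := le_sup_left
  have hAH : A ≤ H := le_sup_right
  have h1 : H ≤ normalizer (K : Set G) :=
    sup_le le_normalizer (fun a ha => mem_norm (hK.2 a ha))
  have h2 : H < ⊤ := lt_of_le_of_lt h1
    (lt_top_iff_ne_top.2 (H51.FT.normalizer_ne_top hG hK.1 hK0))
  have hN := nilp_comm (hNA H h2)
  set D : Subgroup G := qp p ⁅H, H⁆ with hD
  have hDp : IsPGroup p D := isPGroup_qp hp hN
  have hzD : z ∈ D := le_qp (hA.to_le (comm_le_left fun a ha x hx =>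
    A.mul_mem (A.mul_mem ha hx) (A.inv_mem ha))) (Subgroup.commutator_mono hAH hAH) hz
  have hHH : (⁅H, H⁆ : Subgroup G) ≤ H := comm_le_left fun a ha x hx =>
    H.mul_mem (H.mul_mem ha hx) (H.inv_mem ha)
  have hDn : ∀ h ∈ H, ∀ x ∈ D, h * x * h⁻¹ ∈ D := fun h hh x hx =>
    qp_conj (fun y hy => comm_conj (fun z hz => H.mul_mem (H.mul_mem hh hz) (H.inv_mem hh))
      (fun z hz => H.mul_mem (H.mul_mem hh hz) (H.inv_mem hh)) hy) hx
  refine comm_of_inf (A := D) (B := K) ?_ ?_ (inf_eq_bot hp hq hpq hDp hK.1) hzD hk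
  · intro a ha b hb
    exact hDn b (hKH hb) a ha
  · intro a ha b hb
    exact norm_mem (h1 (hHH (qp_le _ _ ha))) hb

theorem trans_nonab (hG : commutator G = ⊤)
    (hNA : ∀ H : Subgroup G, H < ⊤ → Group.IsNilpotent (commutator H)) {p q : ℕ} (hp : p.Prime)
    (hq : q.Prime) (hpq : p ≠ q) {A : Subgroup G} (hA : IsPGroup p A) {x y : G} (hx : x ∈ A)
    (hy : y ∈ A) (hxy : x * y ≠ y * x) {K1 K2 : Subgroup G} (h1 : MInv A q K1)
    (h2 : MInv A q K2) : ∃ c, (∀ a ∈ A, a * c = c * a) ∧ cj c K1 = K2 := by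
  have : Fact p.Prime := ⟨hp⟩
  have : Fact q.Prime := ⟨hq⟩
  set H : Subgroup G := normalizer ((⁅A, A⁆ : Subgroup G) : Set G) with hH
  have hAA : (⁅A, A⁆ : Subgroup G) ≤ A := comm_le_left fun a ha x hx =>
    A.mul_mem (A.mul_mem ha hx) (A.inv_mem ha)
  have hne : (⁅A, A⁆ : Subgroup G) ≠ ⊥ := by
    intro h
    have h3 := Subgroup.commutator_mem_commutator hx hy
    rw [h, Subgroup.mem_bot, commutatorElement_eq_one_iff_mul_comm] at h3
    exact hxy h3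
  have hHt : H < ⊤ := lt_top_iff_ne_top.2 (H51.FT.normalizer_ne_top hG (hA.to_le hAA) hne)
  have hAH : A ≤ H := fun a ha => mem_norm fun z hz =>
    comm_conj (fun w hw => A.mul_mem (A.mul_mem ha hw) (A.inv_mem ha))
      (fun w hw => A.mul_mem (A.mul_mem ha hw) (A.inv_mem ha)) hz
  have hKH : ∀ K : Subgroup G, Inv A q K → K ≤ H := by
    intro K hK k hk
    refine mem_norm fun z hz => ?_
    have := comm_centralises hG hNA hp hq hpq hA hK hz hk
    rw [← this]; simpa using hz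
  obtain ⟨c, hc, hcA, S, hS, hSH, hSA, hS1, hS2⟩ := two_zero hp hq hpq (hNA H hHt) hA hAH
    h1.1.1 (hKH _ h1.1) h1.1.2 h2.1.1 (hKH _ h2.1) h2.1.2
  refine ⟨c, hcA, ?_⟩
  have e1 := (h1.cjc hcA).2 S ⟨hS, hSA⟩ hS1
  have e2 := h2.2 S ⟨hS, hSA⟩ hS2
  rw [← e1, e2]

end

end Pool.Agent.H91.FT
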