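import Pool.Agent.H91.FT.Hyp
import Pool.Agent.H51.FT.Kp

/-!
The transitivity theorem (2.1).
-/

namespace Pool.Agent.H91.FT

open Subgroup

variable {G : Type*} [Group G]

/-- elementary abelian -/
def El (p : ℕ) (E : Subgroup G) : Prop :=
  (∀ x ∈ E, x ^ p = 1) ∧ ∀ x ∈ E, ∀ y ∈ E, x * y = y * x

/-- not abelian of rank at most two -/
def Wide (p : ℕ) (A : Subgroup G) : Prop :=
  (∃ x ∈ A, ∃ y ∈ A, x * y ≠ y * x) ∨ ∃ E ≤ A, El p E ∧ Nat.card E = p ^ 3

theorem one_lt_card' [Finite G] {K : Subgroup G} {v : G} (hv : v ∈ K) (hv1 : v ≠ 1) :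
    1 < Nat.card K := by
  have : Nontrivial K := ⟨⟨⟨v, hv⟩, 1, fun h => hv1 (congrArg Subtype.val h)⟩⟩
  exact Finite.one_lt_card

section
variable [Finite G] [IsSimpleGroup G]

theorem trans_ab (hG : commutator G = ⊤)
    (hNA : ∀ H : Subgroup G, H < ⊤ → Group.IsNilpotent (commutator H)) {p q : ℕ} (hp : p.Prime)
    (hq : q.Prime) (hpq : p ≠ q) {A : Subgroup G} (hA : IsPGroup p A)
    (hAc : ∀ x ∈ A, ∀ y ∈ A, x * y = y * x) {E : Subgroup G} (hEA : E ≤ A) (hel : El p E)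
    (hcard : Nat.card E = p ^ 3) (n : ℕ) : ∀ K1 K2 : Subgroup G, MInv A q K1 → MInv A q K2 →
    Nat.card G - Nat.card (K1 ⊓ K2 : Subgroup G) ≤ n →
    ∃ c, (∀ a ∈ A, a * c = c * a) ∧ cj c K1 = K2 := by
  have : Fact p.Prime := ⟨hp⟩
  have : Fact q.Prime := ⟨hq⟩
  induction n using Nat.strong_induction_on with
  | _ n ih =>
    intro K1 K2 h1 h2 hn
    by_cases h12 : K1 = K2
    · exact ⟨1, fun a _ => by simp, by simp [h12]⟩
    have hlt : ∀ L : Subgroup G, Nat.card L ≤ Nat.card G := fun L => Subgroup.card_le_card_group L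
    -- the induction step, in a proper subgroup `H`
    have step : ∀ H : Subgroup G, H < ⊤ → A ≤ H →
        Nat.card (K1 ⊓ K2 : Subgroup G) < Nat.card (K1 ⊓ H : Subgroup G) →
        Nat.card (K1 ⊓ K2 : Subgroup G) < Nat.card (K2 ⊓ H : Subgroup G) →
        ∃ c, (∀ a ∈ A, a * c = c * a) ∧ cj c K1 = K2 := by
      intro H hH hAH c1 c2
      have hinv : ∀ K : Subgroup G, Inv A q K → ∀ a ∈ A, ∀ x ∈ K ⊓ H, a * x * a⁻¹ ∈ K ⊓ H := by
        intro K hK a ha x hx
        obtain ⟨hx1, hx2⟩ := Subgroup.mem_inf.1 hx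
        exact Subgroup.mem_inf.2 ⟨hK.2 a ha x hx1,
          H.mul_mem (H.mul_mem (hAH ha) hx2) (H.inv_mem (hAH ha))⟩
      obtain ⟨c, hc, hcA, S, hS, hSH, hSA, hS1, hS2⟩ := two_zero hp hq hpq (hNA H hH) hA hAH
        (R1 := K1 ⊓ H) (R2 := K2 ⊓ H) (h1.1.1.to_le inf_le_left) inf_le_right (hinv K1 h1.1)
        (h2.1.1.to_le inf_le_left) inf_le_right (hinv K2 h2.1)
      obtain ⟨K3, h3, hSK⟩ := exists_mInv (A := A) (q := q) ⟨hS, hSA⟩
      have hd : ∃ d, (∀ a ∈ A, a * d = d * a) ∧ cj d (cj c K1) = K3 := by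
        have hle : cj c (K1 ⊓ H) ≤ cj c K1 ⊓ K3 := le_inf (cj_mono inf_le_left) (hS1.trans hSK)
        have h4 : Nat.card (K1 ⊓ K2 : Subgroup G) < Nat.card (cj c K1 ⊓ K3 : Subgroup G) := by
          refine lt_of_lt_of_le c1 ?_
          rw [← card_cj c]
          exact Subgroup.card_le_of_le hle
        have h5 := hlt (cj c K1 ⊓ K3)
        exact ih (Nat.card G - Nat.card (cj c K1 ⊓ K3 : Subgroup G)) (by omega) _ _
          (h1.cjc hcA) h3 le_rfl
      have he : ∃ e, (∀ a ∈ A, a * e = e * a) ∧ cj e K3 = K2 := by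
        have hle : K2 ⊓ H ≤ K3 ⊓ K2 := le_inf (hS2.trans hSK) inf_le_left
        have h4 : Nat.card (K1 ⊓ K2 : Subgroup G) < Nat.card (K3 ⊓ K2 : Subgroup G) :=
          lt_of_lt_of_le c2 (Subgroup.card_le_of_le hle)
        have h5 := hlt (K3 ⊓ K2)
        exact ih (Nat.card G - Nat.card (K3 ⊓ K2 : Subgroup G)) (by omega) _ _ h3 h2 le_rfl
      obtain ⟨d, hdA, hd⟩ := hd
      obtain ⟨e, heA, he⟩ := he
      refine ⟨e * (d * c), ?_, ?_⟩
      · intro a ha
        calc a * (e * (d * c)) = (a * e) * (d * c) := by group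
          _ = e * ((a * d) * c) := by rw [heA a ha]; group
          _ = e * (d * (a * c)) := by rw [hdA a ha]; group
          _ = e * (d * c) * a := by rw [hcA a ha]; group
      · rw [cj_mul, cj_mul, hd, he]
    by_cases h0 : K1 ⊓ K2 = ⊥
    · -- trivial intersection
      have hK1 : K1 ≠ ⊥ := by
        rintro rfl
        exact h12 (h1.2 K2 h2.1 bot_le).symm
      have hK2 : K2 ≠ ⊥ := by
        rintro rfl
        exact h12 (h2.2 K1 h1.1 bot_le)
      obtain ⟨B1, hB1E, cB1, v1, hv1, hv11, hBv1⟩ := hyper hp hq hpq hel.1 hel.2 hcard.ge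
        (E := E) (K := K1) ⟨h1.1.1, fun a ha => h1.1.2 a (hEA ha)⟩ hK1
      obtain ⟨B2, hB2E, cB2, v2, hv2, hv21, hBv2⟩ := hyper hp hq hpq hel.1 hel.2 hcard.ge
        (E := E) (K := K2) ⟨h2.1.1, fun a ha => h2.1.2 a (hEA ha)⟩ hK2
      obtain ⟨a, ha, ha1⟩ := inf_ne_bot (p := p) (by
        rw [hcard]; exact Nat.pow_lt_pow_right hp.one_lt (by norm_num)) hB1E hB2E cB1 cB2
      obtain ⟨haB1, haB2⟩ := Subgroup.mem_inf.1 ha
      have haA : a ∈ A := hEA (hB1E haB1)
      have hzp : IsPGroup p (zpowers a) := hA.to_le (zpowers_le.2 haA)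
      have hzn : zpowers a ≠ ⊥ := by
        rw [Ne, zpowers_eq_bot]; exact ha1
      have hcen : ∀ x : G, a * x = x * a → x ∈ normalizer ((zpowers a : Subgroup G) : Set G) := by
        intro x hx
        refine mem_norm ?_
        rintro _ ⟨k, rfl⟩
        have h3 : Commute x (a ^ k) := (show Commute x a from hx.symm).zpow_right k
        rw [h3.eq]
        simp
      refine step (normalizer ((zpowers a : Subgroup G) : Set G))
        (lt_top_iff_ne_top.2 (H51.FT.normalizer_ne_top hG hzp hzn))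
        (fun b hb => hcen b (hAc a haA b hb)) ?_ ?_
      · rw [h0, Subgroup.card_bot]
        exact one_lt_card' (Subgroup.mem_inf.2 ⟨hv1, hcen v1 (hBv1 a haB1)⟩) hv11
      · rw [h0, Subgroup.card_bot]
        exact one_lt_card' (Subgroup.mem_inf.2 ⟨hv2, hcen v2 (hBv2 a haB2)⟩) hv21
    · -- nontrivial intersection
      have hp0 : IsPGroup q (K1 ⊓ K2 : Subgroup G) := h1.1.1.to_le inf_le_left
      have l1 : K1 ⊓ K2 < K1 := by
        refine lt_of_le_of_ne inf_le_left fun h => h12 ?_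
        have h3 : K1 ≤ K2 := by rw [← h]; exact inf_le_right
        exact (h1.2 K2 h2.1 h3).symm
      have l2 : K1 ⊓ K2 < K2 := by
        refine lt_of_le_of_ne inf_le_right fun h => h12 ?_
        have h3 : K2 ≤ K1 := by rw [← h]; exact inf_le_left
        exact h2.2 K1 h1.1 h3
      have hcl : ∀ {A B : Subgroup G}, A < B → Nat.card A < Nat.card B := by
        intro A B hAB
        exact Set.ncard_lt_ncard (SetLike.coe_ssubset_coe.mpr hAB) (Set.toFinite _)
      refine step (normalizer ((K1 ⊓ K2 : Subgroup G) : Set G))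
        (lt_top_iff_ne_top.2 (H51.FT.normalizer_ne_top hG hp0 h0)) ?_
        (hcl (H51.FT.lt_inf_normalizer h1.1.1 l1)) (hcl (H51.FT.lt_inf_normalizer h2.1.1 l2))
      intro a ha
      refine mem_norm fun x hx => ?_
      obtain ⟨hx1, hx2⟩ := Subgroup.mem_inf.1 hx
      exact Subgroup.mem_inf.2 ⟨h1.1.2 a ha x hx1, h2.1.2 a ha x hx2⟩

/-- (2.1) -/
theorem two_one (hG : commutator G = ⊤)
    (hNA : ∀ H : Subgroup G, H < ⊤ → Group.IsNilpotent (commutator H)) {p q : ℕ} [Fact p.Prime]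
    [Fact q.Prime] (hpq : p ≠ q) {A : Subgroup G} (hA : IsPGroup p A) (hw : Wide p A)
    {K1 K2 : Subgroup G} (h1 : MInv A q K1) (h2 : MInv A q K2) :
    ∃ c, (∀ a ∈ A, a * c = c * a) ∧ cj c K1 = K2 := by
  by_cases hc : ∃ x ∈ A, ∃ y ∈ A, x * y ≠ y * x
  · obtain ⟨x, hx, y, hy, hxy⟩ := hc
    exact trans_nonab hG hNA Fact.out Fact.out hpq hA hx hy hxy h1 h2
  · obtain ⟨E, hEA, hel, hcard⟩ := hw.resolve_left hc
    push Not at hc
    exact trans_ab hG hNA Fact.out Fact.out hpq hA hc hEA hel hcard _ K1 K2 h1 h2 le_rfl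

end

end Pool.Agent.H91.FT
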