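import Pool.Agent.H91.FT.Tr2
import Pool.Agent.H3.FT.Cop2

/-!
A Sylow subgroup which is not abelian of rank at most two centralises every invariant `q`
subgroup (2.2), and lies in a unique maximal subgroup (2.3).
-/

namespace Pool.Agent.H91.FT

open Subgroup
open scoped commutatorElement

variable {G : Type*} [Group G]

/-- the `p'` part of the derived subgroup of `H` lies in `C` as soon as all `A` invariant
`q` subgroups do, `A ≤ H` -/
theorem kp_le [Finite G] {p : ℕ} [Fact p.Prime] {H K A C : Subgroup G} (hK : H51.FT.IsKp p H K)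
    (hAH : A ≤ H) (hC : ∀ q : ℕ, q.Prime → p ≠ q → ∀ W : Subgroup G, Inv A q W → W ≤ C) :
    K ≤ C := by
  have hp : p.Prime := Fact.out
  intro k hk
  refine Pool.Agent.H3.FT.mem_of_parts fun q hq w hw hwq => ?_
  by_cases hw1 : w = 1
  · rw [hw1]; exact C.one_mem
  have hcop : (orderOf k).Coprime p := ((hK.mem k).1 hk).2
  have hnd : ¬ p ∣ orderOf k := fun h => by
    have := Nat.Coprime.eq_one_of_dvd hcop.symm h
    exact hp.one_lt.ne' this
  have hpq := Pool.Agent.H3.FT.part_ne hp hq hnd hw hwq hw1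
  have hwK : w ∈ K := (zpowers_le.2 hk) hw
  obtain ⟨j, hj⟩ := hwq
  refine hC q hq hpq (qp q K) ⟨isPGroup_qp hq hK.nil, fun a ha x hx => ?_⟩ (mem_qp hwK hj)
  exact qp_conj (fun y hy => norm_mem (hK.le_normalizer (hAH ha)) hy) hx

section
variable [Finite G] [IsSimpleGroup G]

/-- a Sylow subgroup with transitive centraliser on the maximal invariant `q` subgroups
centralises them -/
theorem cent_of_trans (hG : commutator G = ⊤)
    (hNA : ∀ H : Subgroup G, H < ⊤ → Group.IsNilpotent (commutator H)) {p q : ℕ} [Fact p.Prime]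
    [Fact q.Prime] (hpq : p ≠ q) (P : Sylow p G)
    (ht : ∀ K1 K2 : Subgroup G, MInv (P : Subgroup G) q K1 → MInv (P : Subgroup G) q K2 →
      ∃ c, (∀ a ∈ (P : Subgroup G), a * c = c * a) ∧ cj c K1 = K2) {K : Subgroup G}
    (hK : MInv (P : Subgroup G) q K) {x k : G} (hx : x ∈ P) (hk : k ∈ K) : x * k = k * x := by
  have hp : p.Prime := Fact.out
  have hq : q.Prime := Fact.out
  by_cases hK0 : K = ⊥
  · subst hK0
    rw [Subgroup.mem_bot] at hk
    subst hk; simp
  set N : Subgroup G := normalizer (K : Set G) with hN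
  have hNt : N < ⊤ := lt_top_iff_ne_top.2 (H51.FT.normalizer_ne_top hG hK.1.1 hK0)
  have hPN : (P : Subgroup G) ≤ N := fun a ha => mem_norm (hK.1.2 a ha)
  have h1 : (P : Subgroup G) ≤ ⁅N, N⁆ := by
    refine (H51.FT.le_comm_normalizer (H51.FT.sylC hG hNA) P hG).trans ?_
    rw [Subgroup.commutator_le]
    intro y hy n hn
    have hn' : ∀ a ∈ (P : Subgroup G), n * a * n⁻¹ ∈ (P : Subgroup G) := fun a ha => norm_mem hn ha
    have hn'' : ∀ a ∈ (P : Subgroup G), n⁻¹ * a * n ∈ (P : Subgroup G) :=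
      fun a ha => norm_mem' hn ha
    obtain ⟨c, hc, he⟩ := ht _ _ (hK.cj hn'' hn') hK
    rw [← cj_mul] at he
    have hm : c * n ∈ N := by
      rw [hN]
      refine mem_norm fun z hz => ?_
      rw [← he]
      exact cj_mem_cj hz
    have h2 : ⁅y, n⁆ = ⁅y, c * n⁆ := by
      rw [commutatorElement_def, commutatorElement_def]
      have h3 := hc _ (hn' _ ((P : Subgroup G).inv_mem hy))
      have h4 : y * n * y⁻¹ * n⁻¹ = y * (n * y⁻¹ * n⁻¹) := by group
      have h5 : y * (c * n) * y⁻¹ * (c * n)⁻¹ = y * (c * (n * y⁻¹ * n⁻¹) * c⁻¹) := by group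
      rw [h4, h5, ← h3]
      group
    rw [h2]
    exact Subgroup.commutator_mem_commutator (hPN hy) hm
  set D : Subgroup G := qp p ⁅N, N⁆ with hD
  have hDp : IsPGroup p D := isPGroup_qp hp (nilp_comm (hNA N hNt))
  have hDn : ∀ h ∈ N, ∀ x ∈ D, h * x * h⁻¹ ∈ D := fun h hh x hx =>
    qp_conj (fun y hy => comm_conj (fun z hz => N.mul_mem (N.mul_mem hh hz) (N.inv_mem hh))
      (fun z hz => N.mul_mem (N.mul_mem hh hz) (N.inv_mem hh)) hy) hx
  have hDN : D ≤ N := (qp_le _ _).trans (comm_le_left fun a ha x hx =>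
    N.mul_mem (N.mul_mem ha hx) (N.inv_mem ha))
  have hKN : K ≤ N := le_normalizer
  exact comm_of_inf (A := D) (B := K) (fun a ha b hb => hDn b (hKN hb) a ha)
    (fun a ha b hb => norm_mem (hDN ha) hb) (inf_eq_bot hp hq hpq hDp hK.1.1)
    (le_qp P.2 h1 hx) hk

/-- (2.2) -/
theorem two_two (hG : commutator G = ⊤)
    (hNA : ∀ H : Subgroup G, H < ⊤ → Group.IsNilpotent (commutator H)) {p q : ℕ} [Fact p.Prime]
    [Fact q.Prime] (hpq : p ≠ q) (P : Sylow p G) (hw : Wide p (P : Subgroup G)) {K : Subgroup G}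
    (hK : Inv (P : Subgroup G) q K) {x k : G} (hx : x ∈ P) (hk : k ∈ K) : x * k = k * x := by
  obtain ⟨L, hL, hKL⟩ := exists_mInv hK
  exact cent_of_trans hG hNA hpq P (fun K1 K2 h1 h2 => two_one hG hNA hpq P.2 hw h1 h2) hL hx
    (hKL hk)

/-- (2.3) uniqueness -/
theorem two_three (hG : commutator G = ⊤)
    (hNA : ∀ H : Subgroup G, H < ⊤ → Group.IsNilpotent (commutator H)) {p : ℕ} [Fact p.Prime]
    (P : Sylow p G) (hw : Wide p (P : Subgroup G)) {H : Subgroup G} (hH : H < ⊤)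
    (hPH : (P : Subgroup G) ≤ H) : H ≤ normalizer (P : Set G) := by
  have hp : p.Prime := Fact.out
  obtain ⟨K, hK⟩ := H51.FT.exists_isKp (p := p) (hNA H hH)
  have hS : H51.FT.IsSyl p H (P : Subgroup G) :=
    ⟨hPH, P.2, fun T _ hTp hPT => P.3 hTp hPT⟩
  have hKP : K ≤ normalizer (P : Set G) := by
    refine kp_le hK hPH fun q hq hpq W hW k hk => ?_
    have : Fact q.Prime := ⟨hq⟩
    refine mem_norm fun x hx => ?_
    have h1 := two_two hG hNA hpq P hw hW hx hk
    rw [← h1]; simpa using hx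
  intro g hg
  obtain ⟨k, hk, n, hn, rfl⟩ := hK.le_sup_normalizer (hNA H hH) hS g hg
  exact mul_mem (hKP hk) (Subgroup.mem_inf.1 hn).2

end

end Pool.Agent.H91.FT
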